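import Pool.Agent.Work.MP_2a522c_an.Pa.Defs2

-- merged part: Unif
section
/-! The image of an invariant probability measure in a finite quotient. -/

open MeasureTheory Finset

namespace Pool.Agent.Work.MP_2a522c_an.Pa

section

variable {G H : Type} [AddCommGroup G] [MeasurableSpace G] [MeasurableAdd G] [AddCommGroup H]
  [Fintype H] (γ : Measure G) [IsProbabilityMeasure γ] [γ.IsAddLeftInvariant] (φ : G →+ H)

omit [Fintype H] [IsProbabilityMeasure γ] in
theorem unif_fib (hs : Function.Surjective φ) (y : H) :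
    γ.real (φ ⁻¹' {y}) = γ.real (φ ⁻¹' {0}) := by
  obtain ⟨g, rfl⟩ := hs y
  have : (fun x => g + x) ⁻¹' (φ ⁻¹' {φ g}) = φ ⁻¹' {0} := by
    ext x
    simp
  rw [← this, Measure.real, Measure.real, measure_preimage_add]

omit [MeasurableAdd G] [Fintype H] [γ.IsAddLeftInvariant] in
theorem unif_sum (hm : ∀ y, MeasurableSet (φ ⁻¹' {y})) (T : Finset H) :
    γ.real (φ ⁻¹' (T : Set H)) = ∑ y ∈ T, γ.real (φ ⁻¹' {y}) := by
  have : φ ⁻¹' (T : Set H) = ⋃ y ∈ T, φ ⁻¹' {y} := by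
    ext x
    simp
  rw [this, measureReal_biUnion_finset]
  · intro a _ b _ hab
    exact Disjoint.preimage φ (Set.disjoint_singleton.2 hab)
  · exact fun y _ => hm y

theorem unif_one (hs : Function.Surjective φ) (hm : ∀ y, MeasurableSet (φ ⁻¹' {y})) (y : H) :
    γ.real (φ ⁻¹' {y}) = 1 / Fintype.card H := by
  have h := unif_sum γ φ hm univ
  rw [coe_univ, Set.preimage_univ, probReal_univ, sum_congr rfl fun y _ => unif_fib γ φ hs y,
    sum_const, card_univ, nsmul_eq_mul] at h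
  have hc : (0 : ℝ) < Fintype.card H := by exact_mod_cast Fintype.card_pos
  rw [unif_fib γ φ hs y, eq_div_iff hc.ne', mul_comm, ← h]

end

theorem unif : StmtUnif := by
  intro G H _ _ _ _ _ γ _ _ φ hs hm T
  rw [unif_sum γ φ hm, sum_congr rfl fun y _ => unif_one γ φ hs hm y, sum_const, nsmul_eq_mul,
    mul_one_div]

theorem int' : StmtInt := by
  intro G H _ _ _ _ _ γ _ _ φ hs hm f
  have e : (fun x => f (φ x)) = fun x => ∑ y, (φ ⁻¹' {y}).indicator (fun _ => f y) x := by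
    funext x
    rw [sum_eq_single (φ x)]
    · rw [Set.indicator_of_mem (by simp)]
    · intro b _ hb
      exact Set.indicator_of_notMem (by simpa using hb.symm) _
    · simp
  have hi : ∀ y ∈ (univ : Finset H), Integrable ((φ ⁻¹' {y}).indicator fun _ => f y) γ :=
    fun y _ => (integrable_const _).indicator (hm y)
  rw [e]
  refine ⟨integrable_finsetSum _ hi, ?_⟩
  rw [integral_finsetSum _ hi, sum_div]
  refine sum_congr rfl fun y _ => ?_
  rw [integral_indicator_const _ (hm y), unif_one γ φ hs hm y, smul_eq_mul, one_div_mul_eq_div]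

end Pool.Agent.Work.MP_2a522c_an.Pa
end

-- merged part: Frost
section
/-! Frostman measures on compact sets of `p`-adic vectors. -/

open MeasureTheory Set Filter Topology
open scoped ENNReal NNReal

namespace Pool.Agent.Work.MP_2a522c_an.Pa

variable (p : ℕ) [Fact p.Prime]

theorem frost_w_pos {σ : ℝ} (h : 0 < σ) (j : ℕ) : ENNReal.ofReal (σ ^ j) ≠ 0 :=
  (ENNReal.ofReal_pos.2 (by positivity)).ne'

theorem frost_w_anti {σ : ℝ} (h : 0 < σ) (h1 : σ ≤ 1) {j J : ℕ} (hj : j ≤ J) :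
    ENNReal.ofReal (σ ^ J) ≤ ENNReal.ofReal (σ ^ j) :=
  ENNReal.ofReal_le_ofReal (pow_le_pow_of_le_one h.le h1 hj)

theorem frost_zero {n : ℕ} : (red p 0 ⁻¹' {0} : Set (Fin n → ℤ_[p])) = univ := by
  have : Subsingleton (ZMod (p ^ 0)) := by rw [pow_zero]; infer_instance
  exact eq_univ_of_forall fun y => funext fun i => Subsingleton.elim _ _

variable [MeasurableSpace ℤ_[p]]

/-- Measures on `K` which satisfy the bounds up to level `J`. -/
def frost_S {n : ℕ} (K : Set (Fin n → ℤ_[p])) (σ : ℝ) (J : ℕ) :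
    Set (Measure (Fin n → ℤ_[p])) :=
  {μ | μ Kᶜ = 0 ∧ ∀ j ≤ J, ∀ c, μ (red p j ⁻¹' {c}) ≤ ENNReal.ofReal (σ ^ j)}

theorem frost_mass {n : ℕ} (K : Set (Fin n → ℤ_[p])) (σ : ℝ) (J : ℕ) :
    ∀ μ ∈ frost_S p K σ J, μ univ ≤ 1 := by
  intro μ hμ
  have := hμ.2 0 (Nat.zero_le _) 0
  rw [frost_zero] at this
  simpa using this

variable [BorelSpace ℤ_[p]]

theorem frost_cover {n : ℕ} {K : Set (Fin n → ℤ_[p])} {σ : ℝ} (μ : Measure (Fin n → ℤ_[p]))
    (h : ∀ y ∈ K, ∃ j, ENNReal.ofReal (σ ^ j) ≤ 2 * μ (red p j ⁻¹' {red p j y})) :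
    cont p σ K ≤ 2 * μ univ := by
  classical
  let U : Set (Σ k : ℕ, Fin n → ZMod (p ^ k)) := {c | ∃ y, red p c.1 y = c.2 ∧
    ENNReal.ofReal (σ ^ c.1) ≤ 2 * μ (red p c.1 ⁻¹' {red p c.1 y}) ∧
    ∀ i < c.1, ¬ ENNReal.ofReal (σ ^ i) ≤ 2 * μ (red p i ⁻¹' {red p i y})}
  have hK : K ⊆ ⋃ c ∈ U, red p c.1 ⁻¹' {c.2} := by
    intro y hy
    have hy' := h y hy
    have hU : (⟨Nat.find hy', red p _ y⟩ : Σ k : ℕ, Fin n → ZMod (p ^ k)) ∈ U :=
      ⟨y, rfl, Nat.find_spec hy', fun i hi => Nat.find_min hy' hi⟩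
    exact mem_biUnion hU rfl
  have key : ∀ a ∈ U, ∀ b ∈ U, ∀ z, red p a.1 z = a.2 → red p b.1 z = b.2 → ¬ a.1 < b.1 := by
    rintro a ⟨y, e, h1, -⟩ b ⟨y', e', -, h2⟩ z za zb hlt
    refine h2 a.1 hlt ?_
    have : red p a.1 y' = red p a.1 y := by
      rw [e, ← za]
      exact red_mono p hlt.le (e'.trans zb.symm)
    rw [this]
    exact h1
  have hd : Pairwise (Function.onFun Disjoint
      fun c : U => (red p c.1.1 ⁻¹' {c.1.2} : Set (Fin n → ℤ_[p]))) := by
    rintro ⟨⟨j, c⟩, ha⟩ ⟨⟨j', c'⟩, hb⟩ hne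
    refine disjoint_left.2 fun z za zb => hne ?_
    have h1 := key _ ha _ hb z za zb
    have h2 := key _ hb _ ha z zb za
    obtain rfl : j = j' := le_antisymm (not_lt.1 h2) (not_lt.1 h1)
    obtain rfl : c = c' := (show red p j z = c from za).symm.trans zb
    rfl
  calc cont p σ K ≤ ∑' c : U, ENNReal.ofReal (σ ^ c.1.1) := iInf₂_le U hK
    _ ≤ ∑' c : U, 2 * μ (red p c.1.1 ⁻¹' {c.1.2}) := ENNReal.tsum_le_tsum fun a => by
      obtain ⟨y, e, h1, -⟩ := a.2
      rwa [e] at h1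
    _ = 2 * ∑' c : U, μ (red p c.1.1 ⁻¹' {c.1.2}) := ENNReal.tsum_mul_left
    _ ≤ 2 * μ univ := by
      gcongr
      exact (tsum_meas_le_meas_iUnion_of_disjoint μ
        (fun c : U => (isClopen_red p c.1.1 c.1.2).isOpen.measurableSet) hd).trans
        (measure_mono (subset_univ _))

theorem frost_level {n : ℕ} (K : Set (Fin n → ℤ_[p])) {σ : ℝ} (hs : 0 < σ)
    (h1 : σ ≤ 1) (J : ℕ) : ∃ μ ∈ frost_S p K σ J, cont p σ K ≤ 2 * μ univ := by
  have hm := frost_mass p K σ J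
  have h0 : (0 : Measure (Fin n → ℤ_[p])) ∈ frost_S p K σ J := ⟨rfl, fun _ _ _ => zero_le⟩
  have hε : ENNReal.ofReal (σ ^ J) / 2 ≠ 0 := (ENNReal.half_pos (frost_w_pos hs J)).ne'
  obtain ⟨μ, hμ, hlt⟩ : ∃ μ ∈ frost_S p K σ J,
      ⨆ ν ∈ frost_S p K σ J, ν univ < μ univ + ENNReal.ofReal (σ ^ J) / 2 := by
    by_contra! c
    have := iSup₂_le c
    rw [← ENNReal.biSup_add ⟨0, h0⟩] at this
    exact (ENNReal.lt_add_right (ne_top_of_le_ne_top ENNReal.one_ne_top (iSup₂_le hm))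
      hε).not_ge this
  refine ⟨μ, hμ, frost_cover p μ fun y hy => ?_⟩
  by_contra! c
  refine hlt.not_ge (le_iSup₂_of_le (μ + (ENNReal.ofReal (σ ^ J) / 2) • Measure.dirac y)
    ⟨?_, ?_⟩ (by simp))
  · simp [hμ.1, hy]
  · intro j hj x
    by_cases a : y ∈ (red p j ⁻¹' {x} : Set (Fin n → ℤ_[p]))
    · have b : μ (red p j ⁻¹' {x}) ≤ ENNReal.ofReal (σ ^ j) / 2 := by
        rw [ENNReal.le_div_iff_mul_le (by simp) (by simp), mul_comm,
          ← show red p j y = x from a]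
        exact (c j).le
      simp only [Measure.add_apply, Measure.smul_apply, Measure.dirac_apply_of_mem a, smul_eq_mul,
        mul_one]
      calc _ ≤ ENNReal.ofReal (σ ^ j) / 2 + ENNReal.ofReal (σ ^ j) / 2 :=
          add_le_add b (ENNReal.div_le_div_right (frost_w_anti hs h1 hj) _)
        _ = _ := ENNReal.add_halves _
    · rw [Measure.add_apply, Measure.smul_apply, Measure.dirac_apply, indicator_of_notMem a,
        smul_zero, add_zero]
      exact hμ.2 j hj x

theorem frost_limit {n : ℕ} {K : Set (Fin n → ℤ_[p])} (hK : IsCompact K) {σ : ℝ} (hs : 0 < σ)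
    (h1 : σ ≤ 1) (h : 0 < cont p σ K) :
    ∃ (ν : ProbabilityMeasure (Fin n → ℤ_[p])) (C : ℝ≥0),
      (ν : Measure (Fin n → ℤ_[p])) Kᶜ = 0 ∧
      ∀ j x, (ν : Measure (Fin n → ℤ_[p])) (red p j ⁻¹' {x}) ≤ C * ENNReal.ofReal (σ ^ j) := by
  obtain ⟨c, hc0, hc⟩ := ENNReal.lt_iff_exists_nnreal_btwn.1 (ENNReal.half_pos h.ne')
  choose μ hμ hl using frost_level p K hs h1
  have hcl : ∀ J, (c : ℝ≥0∞) ≤ μ J univ := fun J =>
    hc.le.trans (ENNReal.div_le_of_le_mul' (hl J))
  have hp : ∀ J, IsProbabilityMeasure ((μ J univ)⁻¹ • μ J) := fun J =>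
    ⟨ENNReal.inv_mul_cancel (hc0.trans_le (hcl J)).ne'
      (ne_top_of_le_ne_top ENNReal.one_ne_top (frost_mass p K σ J _ (hμ J)))⟩
  let ν : ℕ → ProbabilityMeasure (Fin n → ℤ_[p]) := fun J => ⟨_, hp J⟩
  obtain ⟨ρ, hρ, ht⟩ := (isCompact_setOfPred_probabilityMeasure_mass_eq_compl_isCompact_le
    (u := fun _ => 0) (K := fun _ => K) tendsto_const_nhds (fun _ => hK)
    (.inr monotone_const)).ultrafilter_le_nhds' ((hyperfilter ℕ).map ν)
    (by
      refine Ultrafilter.mem_map.2 (univ_mem' fun J _ => ?_)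
      rw [nonpos_iff_eq_zero, ProbabilityMeasure.null_iff_toMeasure_null]
      change (μ J univ)⁻¹ * μ J Kᶜ = 0
      rw [(hμ J).1, mul_zero])
  refine ⟨ρ, c⁻¹, ?_, fun j x => ?_⟩
  · rw [← ProbabilityMeasure.null_iff_toMeasure_null]
    exact nonpos_iff_eq_zero.1 (hρ 0)
  · have ht' : Tendsto ν (hyperfilter ℕ) (𝓝 ρ) := ht
    refine (ProbabilityMeasure.le_liminf_measure_open_of_tendsto ht'
      (isClopen_red p j x).isOpen).trans
      (liminf_le_of_frequently_le' (Eventually.frequently ?_))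
    refine Eventually.filter_mono Nat.hyperfilter_le_atTop ?_
    filter_upwards [eventually_ge_atTop j] with J hJ
    change (μ J univ)⁻¹ * μ J _ ≤ _
    rw [ENNReal.coe_inv (by exact_mod_cast hc0.ne')]
    exact mul_le_mul' (ENNReal.inv_le_inv.2 (hcl J)) ((hμ J).2 j hJ x)

omit [MeasurableSpace ℤ_[p]] [BorelSpace ℤ_[p]] [Fact p.Prime] in
theorem frost (p : ℕ) [Fact p.Prime] [MeasurableSpace ℤ_[p]] [BorelSpace ℤ_[p]] :
    StmtFrost p := by
  intro n K σ hK hs h1 h
  obtain ⟨ν, C, h0, hb⟩ := frost_limit p hK hs h1 h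
  refine ⟨ν, inferInstance, h0, C, fun k c => ?_⟩
  have := ENNReal.toReal_mono (ENNReal.mul_ne_top ENNReal.coe_ne_top ENNReal.ofReal_ne_top)
    (hb k c)
  rwa [ENNReal.toReal_mul, ENNReal.coe_toReal, ENNReal.toReal_ofReal (by positivity)] at this

end Pool.Agent.Work.MP_2a522c_an.Pa
end

-- merged part: KakC
section
/-! The Kakeya estimate over the `p`-adic integers from the estimate modulo `p ^ k`. -/

open MeasureTheory Finset

namespace Pool.Agent.Work.MP_2a522c_an.Pa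

theorem kakc_red (p : ℕ) [Fact p.Prime] [MeasurableSpace ℤ_[p]] [BorelSpace ℤ_[p]]
    (h2 : StmtUnif) (ι : Type) [Fintype ι] [DecidableEq ι] (k : ℕ) (γ : Measure (ι → ℤ_[p]))
    [IsProbabilityMeasure γ] [γ.IsAddLeftInvariant] (T : Finset (ι → ZMod (p ^ k))) :
    γ.real (red p k ⁻¹' (T : Set (ι → ZMod (p ^ k)))) =
      #T / ((p : ℝ) ^ k) ^ Fintype.card ι := by
  have := h2 (ι → ℤ_[p]) (ι → ZMod (p ^ k)) γ (redHom p ι k) (red_surj p ι k)
    (fun y => (isClopen_red p k y).isOpen.measurableSet) T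
  rw [Fintype.card_fun, ZMod.card] at this
  push_cast at this
  exact this

theorem kakc_one (p : ℕ) [Fact p.Prime] [MeasurableSpace ℤ_[p]] [BorelSpace ℤ_[p]]
    (h2 : StmtUnif) (k : ℕ) (γ : Measure ℤ_[p]) [IsProbabilityMeasure γ] [γ.IsAddLeftInvariant]
    (T : Finset (ZMod (p ^ k))) :
    γ.real (PadicInt.toZModPow (p := p) k ⁻¹' (T : Set (ZMod (p ^ k)))) = #T / (p : ℝ) ^ k := by
  have := h2 ℤ_[p] (ZMod (p ^ k)) γ (PadicInt.toZModPow (p := p) k).toAddMonoidHom (toZ_surj p k)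
    (fun y => (isClopen_toZ p k y).isOpen.measurableSet) T
  rw [ZMod.card] at this
  push_cast at this
  exact this

theorem kakC (p : ℕ) [Fact p.Prime] [MeasurableSpace ℤ_[p]] [BorelSpace ℤ_[p]]
    (h1 : StmtKak p) (h2 : StmtUnif) : StmtKakC p := by
  classical
  intro l
  obtain ⟨c, hc⟩ := h1 l
  refine ⟨c, fun h _ _ g _ _ ν _ _ k S u hS hu => ?_⟩
  obtain ⟨F, hF⟩ := hS.exists_fun
  have hp : (0 : ℝ) < p := by exact_mod_cast (Fact.out : p.Prime).pos
  have hN : (0 : ℝ) < (p : ℝ) ^ k := by positivity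
  let Sb : Finset (Option (Fin l) → ZMod (p ^ k)) := univ.filter F
  have hmem : ∀ y, y ∈ S ↔ red p k y ∈ Sb := fun y => by
    rw [hF y]
    simp [Sb]
  have hSe : S = red p k ⁻¹' (Sb : Set _) := Set.ext fun y => hmem y
  let r : ℕ := ⌈u * (p : ℝ) ^ k⌉₊
  have hr1 : 1 ≤ r := Nat.ceil_pos.2 (by positivity)
  have hr : u * (p : ℝ) ^ k ≤ r := Nat.le_ceil _
  let Ω : Finset (Fin l → ZMod (p ^ k)) := univ.filter fun w => ∃ a, r ≤ cnt p Sb w a
  have hK := hc k r Sb Ω hr1 fun w hw => (mem_filter.1 hw).2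
  have hsub : {w | ∃ a, u ≤ h.real {t | pt w a t ∈ S}} ⊆ red p k ⁻¹' (Ω : Set _) := by
    rintro w ⟨a, ha⟩
    have e : {t | pt w a t ∈ S} = PadicInt.toZModPow (p := p) k ⁻¹'
        ((univ.filter fun t => pt (red p k w) (red p k a) t ∈ Sb : Finset _) : Set _) := by
      ext t
      simp [hmem, red_pt]
    rw [e, kakc_one p h2, le_div_iff₀ hN] at ha
    refine mem_filter.2 ⟨mem_univ _, red p k a, Nat.ceil_le.2 ?_⟩
    refine ha.trans_eq ?_
    unfold cnt
    congr
  have hg := (measureReal_mono (μ := g) hsub).trans_eq (kakc_red p h2 (Fin l) k g Ω)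
  have hν : ν.real S = #Sb / ((p : ℝ) ^ k) ^ (l + 1) := by
    rw [hSe, kakc_red p h2]
    simp
  rw [Fintype.card_fin] at hg
  have hu' : u ^ (l + 1) ≤ (r : ℝ) ^ (l + 1) / ((p : ℝ) ^ k) ^ (l + 1) := by
    rw [← div_pow]
    exact pow_le_pow_left₀ hu.le ((le_div_iff₀ hN).2 hr) _
  calc _ ≤ (#Ω / ((p : ℝ) ^ k) ^ l) * ((r : ℝ) ^ (l + 1) / ((p : ℝ) ^ k) ^ (l + 1)) :=
        mul_le_mul hg hu' (by positivity) (by positivity)
    _ = (#Ω * (r : ℝ) ^ (l + 1)) / (((p : ℝ) ^ k) ^ l * ((p : ℝ) ^ k) ^ (l + 1)) :=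
        div_mul_div_comm _ _ _ _
    _ ≤ (c * ((k : ℝ) + 1) ^ (l + 2) * ((p : ℝ) ^ k) ^ l * #Sb) /
          (((p : ℝ) ^ k) ^ l * ((p : ℝ) ^ k) ^ (l + 1)) :=
        div_le_div_of_nonneg_right hK (by positivity)
    _ = _ := by
        rw [hν]
        field_simp

end Pool.Agent.Work.MP_2a522c_an.Pa
end

-- merged part: Line
section
/-! Some line in each direction has at least the mean value. -/

open MeasureTheory Finset

namespace Pool.Agent.Work.MP_2a522c_an.Pa

/-- The lines with a fixed direction partition the space. -/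
def line_equiv {l : ℕ} {R : Type} [CommRing R] (w : Fin l → R) :
    (Fin l → R) × R ≃ (Option (Fin l) → R) where
  toFun z := pt w z.1 z.2
  invFun y := (fun i => y (some i) - y none * w i, y none)
  left_inv z := by
    ext i <;> simp [pt]
  right_inv y := by
    funext i
    cases i <;> simp [pt]

theorem line_sum {l : ℕ} {R : Type} [CommRing R] [Fintype R] (w : Fin l → R)
    (F : (Option (Fin l) → R) → ℝ) : ∑ c, ∑ t, F (pt w c t) = ∑ y, F y := by
  rw [← Fintype.sum_prod_type' (fun c t => F (pt w c t))]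
  exact Fintype.sum_equiv (line_equiv w) _ _ fun _ => rfl

theorem line_fin {l : ℕ} {R : Type} [CommRing R] [Fintype R] (w : Fin l → R)
    (F : (Option (Fin l) → R) → ℝ) : ∃ c, (∑ y, F y) / Fintype.card (Option (Fin l) → R) ≤
      (∑ t, F (pt w c t)) / Fintype.card R := by
  have h1 : (Fintype.card (Option (Fin l) → R) : ℝ) =
      Fintype.card (Fin l → R) * Fintype.card R := by
    rw [← Fintype.card_congr (line_equiv w), Fintype.card_prod, Nat.cast_mul]
  have h2 : (Fintype.card (Fin l → R) : ℝ) ≠ 0 := Nat.cast_ne_zero.2 Fintype.card_ne_zero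
  obtain ⟨c, -, hc⟩ := Finset.exists_le_of_sum_le (s := (univ : Finset (Fin l → R)))
    (f := fun _ => (∑ y, F y) / Fintype.card (Option (Fin l) → R))
    (g := fun c => (∑ t, F (pt w c t)) / Fintype.card R) univ_nonempty (by
      rw [← Finset.sum_div, ← Finset.sum_div, line_sum, Finset.sum_const, card_univ, nsmul_eq_mul,
        h1, mul_div_mul_left _ _ h2])
  exact ⟨c, hc⟩

theorem line (p : ℕ) [Fact p.Prime] [MeasurableSpace ℤ_[p]] [BorelSpace ℤ_[p]] (h : StmtInt) :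
    StmtLine p := by
  intro l μ _ _ ν _ _ k f hf w
  obtain ⟨F, hF⟩ := Det.exists_fun p hf
  obtain ⟨c, hc⟩ := line_fin (red p k w) F
  obtain ⟨a, rfl⟩ := red_surj p (Fin l) k c
  refine ⟨a, ?_⟩
  have h1 := (h _ _ ν (redHom p (Option (Fin l)) k) (red_surj p _ k)
    (fun y => (isClopen_red p k y).isOpen.measurableSet) F).2
  have h2 := (h _ _ μ (PadicInt.toZModPow (p := p) k).toAddMonoidHom (toZ_surj p k)
    (fun y => (isClopen_toZ p k y).isOpen.measurableSet)
    (fun t => F (pt (red p k w) (red p k a) t))).2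
  simp only [hF, red_pt]
  exact h1.trans_le (hc.trans_eq h2.symm)

end Pool.Agent.Work.MP_2a522c_an.Pa
end

-- merged part: Tail
section
/-! Uniform convergence of the truncated line integrals off a null set of directions. -/

open MeasureTheory Finset Filter Topology
open scoped ENNReal

namespace Pool.Agent.Work.MP_2a522c_an.Pa

theorem tail_cont (p : ℕ) [Fact p.Prime] {ι : Type} [Fintype ι] {k : ℕ}
    {f : (ι → ℤ_[p]) → ℝ} (h : Det p k f) : Continuous f := by
  obtain ⟨F, hF⟩ := h.exists_fun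
  have h1 : IsLocallyConstant (red p k : (ι → ℤ_[p]) → _) :=
    IsLocallyConstant.iff_isOpen_fiber.2 fun c => (isClopen_red p k c).isOpen
  have e : f = F ∘ red p k := funext hF
  rw [e]
  exact (h1.comp F).continuous

theorem tail_pt (p : ℕ) [Fact p.Prime] {l : ℕ} (w a : Fin l → ℤ_[p]) : Continuous (pt w a) := by
  refine continuous_pi fun i => ?_
  cases i with
  | none => exact continuous_id
  | some i => exact continuous_const.add (continuous_id.mul continuous_const)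

theorem tail_step {X : Type} [TopologicalSpace X] [CompactSpace X] [MeasurableSpace X]
    [BorelSpace X] (h : Measure X) [IsProbabilityMeasure h] {u v : X → ℝ} (hu : Continuous u)
    (hv : Continuous v) (h1 : ∀ t, u t ≤ 1) (h0 : ∀ t, 0 ≤ v t) {η : ℝ} (hη : 0 < η)
    (hs : h.real {t | η ^ 2 ≤ (v t - u t) ^ 2} < η) : ∫ t, u t ∂h - 2 * η ≤ ∫ t, v t ∂h := by
  have iu : Integrable u h := hu.integrable_of_hasCompactSupport (HasCompactSupport.of_compactSpace _)
  have iv : Integrable v h := hv.integrable_of_hasCompactSupport (HasCompactSupport.of_compactSpace _)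
  set T := {t | η ^ 2 ≤ (v t - u t) ^ 2} with hT
  have mT : MeasurableSet T := (isClosed_le continuous_const ((hv.sub hu).pow 2)).measurableSet
  have i1 : Integrable (T.indicator fun _ => (1 : ℝ)) h := (integrable_const 1).indicator mT
  have key : ∫ t, (u t - v t) ∂h ≤ ∫ t, (η + T.indicator (fun _ => (1 : ℝ)) t) ∂h := by
    refine integral_mono (iu.sub iv) ((integrable_const η).add i1) fun t => ?_
    by_cases ht : t ∈ T
    · simp only [Set.indicator_of_mem ht]
      linarith [h1 t, h0 t]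
    · simp only [Set.indicator_of_notMem ht]
      have a : (v t - u t) ^ 2 < η ^ 2 := not_le.1 ht
      have b := (abs_lt.1 (abs_lt_of_sq_lt_sq a hη.le)).1
      linarith
  rw [integral_sub iu iv, integral_add (integrable_const η) i1, integral_indicator_const _ mT] at key
  simp only [integral_const, probReal_univ, smul_eq_mul, one_mul, mul_one] at key
  linarith

theorem tail_tel {I : ℕ → ℝ} {θ : ℝ} (h0 : 0 < θ) (h1 : θ < 1) {K : ℕ}
    (hI : ∀ k, K ≤ k → I k - 2 * θ ^ k ≤ I (k + 1)) {k₀ : ℕ} (hk : K ≤ k₀) (k : ℕ)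
    (hk' : k₀ ≤ k) : I k₀ - 2 * θ ^ k₀ / (1 - θ) ≤ I k := by
  have hp : 0 < 1 - θ := by linarith
  have key : I k₀ - 2 * θ ^ k₀ / (1 - θ) + 2 * θ ^ k / (1 - θ) ≤ I k := by
    induction k, hk' using Nat.le_induction with
    | base => linarith
    | succ k hk' ih =>
      have a := hI k (hk.trans hk')
      have e : 2 * θ ^ (k + 1) / (1 - θ) = 2 * θ ^ k / (1 - θ) - 2 * θ ^ k := by
        field_simp
        ring
      linarith
  have : 0 ≤ 2 * θ ^ k / (1 - θ) := by positivity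
  linarith

theorem tail_sum (C ρ : ℝ) (m : ℕ) (h0 : 0 < ρ) (h1 : ρ < 1) :
    Summable fun k : ℕ => C * ((((k + 1 : ℕ) : ℝ) + 1) ^ m * ρ ^ k) := by
  have a := summable_pow_mul_geometric_of_norm_lt_one (R := ℝ) m (r := ρ)
    (by rwa [Real.norm_eq_abs, abs_of_pos h0])
  have b := ((summable_nat_add_iff 2).2 a).mul_left (C / ρ ^ 2)
  refine b.congr fun k => ?_
  push_cast
  field_simp
  ring

theorem tail (p : ℕ) [Fact p.Prime] [MeasurableSpace ℤ_[p]] [BorelSpace ℤ_[p]]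
    (h : StmtKakC p) : StmtTail p := by
  intro l hh _ _ g _ _ ν _ _ f B q q0 q1 hD hf hB
  obtain ⟨c, hc⟩ := h l
  obtain ⟨θ, θ0, θ1, hθ⟩ : ∃ θ : ℝ, 0 < θ ∧ θ < 1 ∧ q < θ ^ (l + 3) := by
    have r0 : 0 < (1 + q) / 2 := by linarith
    refine ⟨((1 + q) / 2) ^ (((l + 3 : ℕ) : ℝ)⁻¹), Real.rpow_pos_of_pos r0 _,
      Real.rpow_lt_one r0.le (by linarith) (by positivity), ?_⟩
    rw [Real.rpow_inv_natCast_pow r0.le (by omega)]
    linarith
  have fc : ∀ k, Continuous (f k) := fun k => tail_cont p (hD k)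
  let S : ℕ → Set (Option (Fin l) → ℤ_[p]) :=
    fun k => {y | (θ ^ k) ^ 2 ≤ (f (k + 1) y - f k y) ^ 2}
  let W : ℕ → Set (Fin l → ℤ_[p]) :=
    fun k => {w | ∃ a, θ ^ k ≤ hh.real {t | pt w a t ∈ S k}}
  have hS : ∀ k, (θ ^ k) ^ 2 * ν.real (S k) ≤ B * q ^ k := fun k =>
    (mul_meas_ge_le_integral_of_nonneg (f := fun y => (f (k + 1) y - f k y) ^ 2)
      (ae_of_all _ fun y => sq_nonneg _)
      ((((fc (k + 1)).sub (fc k)).pow 2).integrable_of_hasCompactSupport
        (HasCompactSupport.of_compactSpace _)) _).trans (hB k)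
  have hdet : ∀ k, Det p (k + 1) (fun y => y ∈ S k) := fun k y y' e => by
    simp only [S, Set.mem_setOf_eq]
    rw [hD (k + 1) y y' e, hD k y y' (red_mono p (Nat.le_succ k) e)]
  have hpos : 0 < θ ^ (l + 3) := by positivity
  have hW : ∀ k, g.real (W k) ≤
      |c| * B * ((((k + 1 : ℕ) : ℝ) + 1) ^ (l + 2) * (q / θ ^ (l + 3)) ^ k) := by
    intro k
    have a := hc hh g ν (k + 1) (S k) (θ ^ k) (hdet k) (by positivity)
    have b : c * (((k + 1 : ℕ) : ℝ) + 1) ^ (l + 2) * ν.real (S k) ≤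
        |c| * (((k + 1 : ℕ) : ℝ) + 1) ^ (l + 2) * ν.real (S k) :=
      mul_le_mul_of_nonneg_right (mul_le_mul_of_nonneg_right (le_abs_self c) (by positivity))
        measureReal_nonneg
    have d := mul_le_mul_of_nonneg_left (hS k)
      (by positivity : 0 ≤ |c| * (((k + 1 : ℕ) : ℝ) + 1) ^ (l + 2))
    have e := mul_le_mul_of_nonneg_right (a.trans b) (by positivity : 0 ≤ (θ ^ k) ^ 2)
    have hp : 0 < (θ ^ (l + 3)) ^ k := by positivity
    rw [div_pow, ← mul_div_assoc, ← mul_div_assoc, le_div_iff₀ hp]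
    have e1 : (θ ^ (l + 3)) ^ k = (θ ^ k) ^ (l + 1) * (θ ^ k) ^ 2 := by ring
    calc g.real (W k) * (θ ^ (l + 3)) ^ k = g.real (W k) * (θ ^ k) ^ (l + 1) * (θ ^ k) ^ 2 := by
          rw [e1, mul_assoc]
      _ ≤ _ := e
      _ = |c| * (((k + 1 : ℕ) : ℝ) + 1) ^ (l + 2) * ((θ ^ k) ^ 2 * ν.real (S k)) := by ring
      _ ≤ _ := d
      _ = _ := by ring
  have hsum : Summable fun k => g.real (W k) :=
    Summable.of_nonneg_of_le (fun k => measureReal_nonneg) hW
      (tail_sum _ _ _ (div_pos q0 hpos) ((div_lt_one hpos).2 hθ))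
  have hfin : ∑' k, g (W k) ≠ ∞ := by
    have e : ∀ k, g (W k) = ENNReal.ofReal (g.real (W k)) :=
      fun k => (ofReal_measureReal (measure_ne_top _ _)).symm
    simp only [e]
    exact hsum.tsum_ofReal_ne_top
  filter_upwards [ae_eventually_notMem hfin] with w hw ε hε
  obtain ⟨K, hK⟩ := eventually_atTop.1 hw
  have ht : Tendsto (fun k : ℕ => 2 * θ ^ k / (1 - θ)) atTop (𝓝 (2 * 0 / (1 - θ))) :=
    ((tendsto_pow_atTop_nhds_zero_of_lt_one θ0.le θ1).const_mul 2).div_const _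
  rw [mul_zero, zero_div] at ht
  obtain ⟨k₀, hk₀, hk₁⟩ := ((ht.eventually_le_const hε).and (eventually_ge_atTop K)).exists
  refine ⟨k₀, fun k hk a => ?_⟩
  have key := tail_tel (I := fun k => ∫ t, f k (pt w a t) ∂hh) θ0 θ1 (K := K) (fun j hj =>
    tail_step hh ((fc j).comp (tail_pt p w a)) ((fc (j + 1)).comp (tail_pt p w a))
      (fun t => (hf j _).2) (fun t => (hf (j + 1) _).1) (pow_pos θ0 j)
      (not_le.1 fun hle => hK j hj ⟨a, hle⟩)) hk₁ k hk
  linarith

end Pool.Agent.Work.MP_2a522c_an.Pa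
end

-- merged part: Core
section
/-! The deterministic core. -/

open MeasureTheory

namespace Pool.Agent.Work.MP_2a522c_an.Pa

theorem core_cont (p : ℕ) [Fact p.Prime] {ι : Type} [Fintype ι] {k : ℕ} {f : (ι → ℤ_[p]) → ℝ}
    (h : Det p k f) : Continuous f := by
  obtain ⟨F, hF⟩ := h.exists_fun
  have : IsLocallyConstant (red p k : (ι → ℤ_[p]) → _) :=
    IsLocallyConstant.iff_isOpen_fiber.2 fun c => (isClopen_red p k c).isOpen
  rw [show f = F ∘ red p k from funext hF]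
  exact (this.comp F).continuous

theorem core_pt {x M : ℝ} (hx : 0 ≤ x) (hM : 2 ≤ M) : x ≤ M * min x 1 + x ^ 2 / M := by
  have hM0 : 0 < M := by linarith
  have h0 : 0 ≤ x ^ 2 / M := by positivity
  rcases le_total x 1 with h | h
  · rw [min_eq_left h]
    nlinarith
  · rw [min_eq_right h, mul_one, ← sub_le_iff_le_add', le_div_iff₀ hM0]
    nlinarith [sq_nonneg (x - M)]

theorem core (p : ℕ) [Fact p.Prime] [MeasurableSpace ℤ_[p]] [BorelSpace ℤ_[p]] (h1 : StmtTail p)
    (h2 : StmtLine p) : StmtCore p := by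
  intro l g _ _ ν _ _ f B q F q0 q1 hD f0 f1 f2 f3 hF hs
  let h : Measure ℤ_[p] := Measure.addHaarMeasure ⊤
  have : IsProbabilityMeasure h := ⟨by
    have := Measure.addHaarMeasure_self (K₀ := (⊤ : TopologicalSpace.PositiveCompacts ℤ_[p]))
    simpa using this⟩
  have int : ∀ u : (Option (Fin l) → ℤ_[p]) → ℝ, Continuous u → Integrable u ν := fun u hu =>
    hu.integrable_of_hasCompactSupport (HasCompactSupport.of_compactSpace u)
  have hG : ∀ k, Det p k fun y => min (f k y) 1 := fun k y y' e => by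
    simp only [hD k y y' e]
  have cf := fun k => core_cont p (hD k)
  have cg := fun k => core_cont p (hG k)
  set M : ℝ := 2 * max B 1 with hM
  have M2 : 2 ≤ M := by have := le_max_right B 1; linarith
  have M0 : 0 < M := by linarith
  have low : ∀ k, 1 / (2 * M) ≤ ∫ y, min (f k y) 1 ∂ν := fun k => by
    have i1 := (int _ (cg k)).const_mul M
    have i2 := (int _ ((cf k).pow 2)).div_const M
    have a := integral_mono (int _ (cf k)) (i1.add i2) fun y => core_pt (f0 k y) M2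
    have b : ∫ y, f k y ^ 2 ∂ν ≤ M / 2 := (f2 k).trans (by have := le_max_left B 1; linarith)
    rw [f1 k] at a
    simp only [Pi.add_apply] at a
    rw [integral_add i1 i2, integral_const_mul, integral_div] at a
    simp only [Pi.pow_apply] at a
    have c : (∫ y, f k y ^ 2 ∂ν) / M ≤ 1 / 2 := by rw [div_le_iff₀ M0]; linarith
    rw [div_le_iff₀ (by linarith)]
    nlinarith
  filter_upwards [h1 l h g ν (fun k y => min (f k y) 1) B q q0 q1 hG
    (fun k y => ⟨le_min (f0 k y) zero_le_one, min_le_right _ _⟩)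
    (fun k => (integral_mono (int _ (((cg (k + 1)).sub (cg k)).pow 2))
      (int _ (((cf (k + 1)).sub (cf k)).pow 2)) fun y => sq_le_sq.2 (by
        simpa using abs_min_sub_min_le_max (f (k + 1) y) 1 (f k y) 1)).trans (f3 k))] with w hw
  have c0 : 0 < 1 / (2 * M) := by positivity
  obtain ⟨k₀, hk⟩ := hw (1 / (2 * M) / 2) (by positivity)
  obtain ⟨a₀, ha⟩ := h2 l h ν k₀ _ (hG k₀) w
  refine ⟨a₀, mem_interior.2 ⟨red p k₀ ⁻¹' {red p k₀ a₀}, fun a (e : red p k₀ a = red p k₀ a₀) => ?_,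
    (isClopen_red p k₀ _).isOpen, rfl⟩⟩
  have cl : IsClosed ((fun (y : Option (Fin l) → ℤ_[p]) i => y (some i) - y none * w i) '' F) :=
    (hF.image (by fun_prop)).isClosed
  rw [← cl.closure_eq, Metric.mem_closure_iff]
  intro ε hε
  obtain ⟨n, hn⟩ := PadicInt.exists_pow_neg_lt p hε
  have e1 : ∫ t, min (f k₀ (pt w a t)) 1 ∂h = ∫ t, min (f k₀ (pt w a₀ t)) 1 ∂h := by
    congr 1
    funext t
    exact hG k₀ _ _ (by rw [red_pt, red_pt, e])
  have pos := hk (max k₀ n) (le_max_left _ _) a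
  have l0 := low k₀
  obtain ⟨t, ht⟩ : ∃ t, 0 < f (max k₀ n) (pt w a t) := by
    by_contra j
    push Not at j
    have : ∫ t, min (f (max k₀ n) (pt w a t)) 1 ∂h ≤ 0 :=
      integral_nonpos fun t => (min_le_left _ _).trans (j t)
    simp only [e1] at pos
    linarith
  obtain ⟨y, hy, e2⟩ := hs _ _ ht
  have e3 := red_mono p (le_max_right k₀ n) e2
  refine ⟨_, ⟨y, hy, rfl⟩, lt_of_le_of_lt ((red_eq_iff p n _ _).1 ?_) hn⟩
  funext i
  have a1 := congrFun e3 (some i)
  have a2 := congrFun e3 none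
  simp only [red, pt, Option.elim, map_add, map_mul, map_sub] at a1 a2 ⊢
  rw [a1, a2]
  ring

end Pool.Agent.Work.MP_2a522c_an.Pa
end

-- merged part: Null
section
/-! A compact null set with a line in every direction. -/

open MeasureTheory Finset

namespace Pool.Agent.Work.MP_2a522c_an.Pa

theorem null_dvd (p : ℕ) [Fact p.Prime] (k : ℕ) (x y : ℤ_[p]) :
    PadicInt.toZModPow k x = PadicInt.toZModPow k y ↔ (p : ℤ_[p]) ^ k ∣ x - y := by
  rw [← sub_eq_zero, ← map_sub, ← RingHom.mem_ker, PadicInt.ker_toZModPow,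
    Ideal.mem_span_singleton]

theorem null (p : ℕ) [Fact p.Prime] [MeasurableSpace ℤ_[p]] [BorelSpace ℤ_[p]] (h1 : StmtPhi p)
    (h2 : StmtUnif) : StmtNull p := by
  classical
  intro l hl ν _ _
  have hp : p.Prime := Fact.out
  have nz : ∀ k, NeZero (p ^ k) := fun k => ⟨pow_ne_zero _ hp.ne_zero⟩
  have hp1 : (1 : ℝ) < p := by exact_mod_cast hp.one_lt
  obtain ⟨φ, hφ, h⟩ := h1
  let Ψ : (Fin l → ℤ_[p]) × ℤ_[p] → Option (Fin l) → ℤ_[p] := fun z => pt z.1 (φ ∘ z.1) z.2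
  have hΨ : Continuous Ψ := continuous_pi fun i => by
    cases i with
    | none => exact continuous_snd
    | some i =>
      change Continuous fun z : (Fin l → ℤ_[p]) × ℤ_[p] => φ (z.1 i) + z.2 * z.1 i
      fun_prop
  refine ⟨Set.range Ψ, isCompact_range hΨ, ?_, fun w => ⟨φ ∘ w, fun t => ⟨(w, t), rfl⟩⟩⟩
  have lv : ∀ (k : ℕ) (s : ZMod (p ^ k)), PadicInt.toZModPow k ((s.val : ℕ) : ℤ_[p]) = s :=
    fun k s => by rw [map_natCast, ZMod.natCast_zmod_val]
  have piece : ∀ a j : ℕ, ∃ E : Set (Option (Fin l) → ℤ_[p]),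
      ν.real E ≤ (((p : ℝ) ^ j) ^ (l + 1))⁻¹ ∧
      ∀ w t, PadicInt.toZModPow j t = (a : ZMod (p ^ j)) → Ψ (w, t) ∈ E := by
    intro a j
    obtain ⟨K, hK⟩ := h a j
    let T : Finset (Option (Fin l) → ZMod (p ^ (K + j))) :=
      univ.image fun z : (Fin l → ZMod (p ^ K)) × ZMod (p ^ K) =>
        red p (K + j) (Ψ (fun i => ((z.1 i).val : ℤ_[p]), a + (p : ℤ_[p]) ^ j * (z.2.val : ℕ)))
    refine ⟨redHom p _ (K + j) ⁻¹' (T : Set _), ?_, fun w t ht => ?_⟩
    · rw [h2 _ _ ν (redHom p _ (K + j)) (red_surj p _ _)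
        (fun y => (isClopen_red p (K + j) y).isClosed.measurableSet) T]
      have c1 : (#T : ℝ) ≤ ((p : ℝ) ^ K) ^ (l + 1) := by
        have : #T ≤ (p ^ K) ^ (l + 1) := card_image_le.trans (by simp [pow_succ])
        exact_mod_cast this
      have c2 : (Fintype.card (Option (Fin l) → ZMod (p ^ (K + j))) : ℝ) =
          ((p : ℝ) ^ K) ^ (l + 1) * ((p : ℝ) ^ j) ^ (l + 1) := by
        simp [pow_add, mul_pow]
        ring
      rw [c2, div_le_iff₀ (by positivity), mul_comm (_ ^ _), ← mul_assoc,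
        inv_mul_cancel₀ (by positivity), one_mul]
      exact c1
    · obtain ⟨t1, e1⟩ := (null_dvd p j t a).1 (by rw [ht, map_natCast])
      have e2 : PadicInt.toZModPow (K + j)
          ((a : ℤ_[p]) + (p : ℤ_[p]) ^ j * (((PadicInt.toZModPow K t1).val : ℕ) : ℤ_[p])) =
          PadicInt.toZModPow (K + j) t := by
        obtain ⟨t2, e3⟩ := (null_dvd p K _ t1).1 (lv K (PadicInt.toZModPow K t1))
        exact (null_dvd p _ _ _).2 ⟨t2, by linear_combination (p : ℤ_[p]) ^ j * e3 - e1⟩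
      refine mem_coe.2 (mem_image.2 ⟨(red p K w, PadicInt.toZModPow K t1), mem_univ _, ?_⟩)
      funext i
      cases i with
      | none => exact e2
      | some i =>
        refine Eq.trans ?_ (hK t _ (w i) ht (lv K (PadicInt.toZModPow K (w i))))
        rw [map_add, map_mul, ← e2, ← map_mul, ← map_add]
        rfl
  choose E hE1 hE2 using piece
  have bound : ∀ j : ℕ, ν.real (Set.range Ψ) ≤ ((p : ℝ)⁻¹) ^ j := by
    intro j
    have sub : Set.range Ψ ⊆ ⋃ a ∈ range (p ^ j), E a j := by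
      rintro _ ⟨⟨w, t⟩, rfl⟩
      exact Set.mem_biUnion (mem_range.2 (ZMod.val_lt (PadicInt.toZModPow j t)))
        (hE2 _ j w t (ZMod.natCast_zmod_val _).symm)
    refine (measureReal_mono sub (measure_ne_top _ _)).trans ((measureReal_biUnion_finset_le _ _).trans ?_)
    refine (sum_le_sum fun a _ => hE1 a j).trans ?_
    have q1 : (1 : ℝ) ≤ (p : ℝ) ^ j := one_le_pow₀ hp1.le
    rw [sum_const, card_range, nsmul_eq_mul, Nat.cast_pow, inv_pow, pow_succ', mul_inv,
      ← mul_assoc, mul_inv_cancel₀ (by positivity), one_mul]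
    exact inv_anti₀ (by positivity) (le_self_pow₀ q1 (by omega))
  have lim := tendsto_pow_atTop_nhds_zero_of_lt_one (r := (p : ℝ)⁻¹) (by positivity)
    (inv_lt_one_of_one_lt₀ hp1)
  exact (measureReal_eq_zero_iff (measure_ne_top _ _)).1
    (le_antisymm (ge_of_tendsto' lim bound) measureReal_nonneg)

end Pool.Agent.Work.MP_2a522c_an.Pa
end

-- merged part: Dim
section
/-! A set of positive Haar measure has full dimension. -/

open MeasureTheory Filter Topology
open scoped ENNReal NNReal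

namespace Pool.Agent.Work.MP_2a522c_an.Pa

variable (p : ℕ) [Fact p.Prime] [MeasurableSpace ℤ_[p]] [BorelSpace ℤ_[p]]

theorem dim_ball (h : StmtUnif) (m : ℕ) (ν : Measure (Fin m → ℤ_[p])) [IsProbabilityMeasure ν]
    [ν.IsAddLeftInvariant] (k : ℕ) (x : Fin m → ℤ_[p]) (s : Set (Fin m → ℤ_[p]))
    (hs : ∀ y ∈ s, red p k y = red p k x) : ν.real s ≤ ((p : ℝ) ^ (-(k : ℤ))) ^ m := by
  classical
  have h1 := h _ _ ν (redHom p (Fin m) k) (red_surj p _ k)
    (fun y => (isClopen_red p k y).isOpen.measurableSet) {red p k x}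
  have h2 : ν.real s ≤ ν.real ((redHom p (Fin m) k) ⁻¹'
      (({red p k x} : Finset (Fin m → ZMod (p ^ k))) : Set (Fin m → ZMod (p ^ k)))) := by
    refine measureReal_mono (fun y hy => ?_)
    simpa [redHom_apply] using hs y hy
  rw [h1] at h2
  refine h2.trans (le_of_eq ?_)
  simp [ZMod.card]

theorem dim_key (h : StmtUnif) (m : ℕ) (hm : m ≠ 0) (ν : Measure (Fin m → ℤ_[p]))
    [IsProbabilityMeasure ν] [ν.IsAddLeftInvariant] (s : Set (Fin m → ℤ_[p])) :
    ν s ≤ Metric.ediam s ^ (m : ℝ) := by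
  classical
  have hp1 : (1 : ℝ) < p := by exact_mod_cast (Fact.out : p.Prime).one_lt
  have hp : (0 : ℝ) < p := by linarith
  rcases s.eq_empty_or_nonempty with rfl | ⟨x, hx⟩
  · simp
  by_cases hall : ∃ k, ¬ ∀ y ∈ s, red p k y = red p k x
  · have h0 : Nat.find hall ≠ 0 := by
      intro e
      have := Nat.find_spec hall
      rw [e] at this
      refine this fun y _ => funext fun i => (toZ_eq_iff p 0 _ _).2 ?_
      simpa using PadicInt.norm_le_one (y i - x i)
    obtain ⟨k, hk⟩ := Nat.exists_eq_succ_of_ne_zero h0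
    have h1 := Nat.find_spec hall
    rw [hk] at h1
    have h2 : ∀ y ∈ s, red p k y = red p k x := by
      by_contra hc
      exact absurd (Nat.find_min' hall hc) (by omega)
    push Not at h1
    obtain ⟨y, hy, hne⟩ := h1
    obtain ⟨i, hi⟩ := Function.ne_iff.1 hne
    have h3 : ¬ ‖y i - x i‖ ≤ (p : ℝ) ^ (-((k + 1 : ℕ) : ℤ)) := fun e =>
      hi ((toZ_eq_iff p (k + 1) _ _).2 e)
    rw [PadicInt.norm_le_pow_iff_norm_lt_pow_add_one, not_lt] at h3
    have h4 : (p : ℝ) ^ (-(k : ℤ)) ≤ dist y x := by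
      have e : (-((k + 1 : ℕ) : ℤ)) + 1 = -(k : ℤ) := by push_cast; ring
      rw [e, ← dist_eq_norm] at h3
      exact h3.trans (dist_le_pi_dist y x i)
    have h5 : ENNReal.ofReal ((p : ℝ) ^ (-(k : ℤ))) ≤ Metric.ediam s := by
      refine (ENNReal.ofReal_le_ofReal h4).trans ?_
      rw [← edist_dist]
      exact Metric.edist_le_ediam_of_mem hy hx
    have h6 := dim_ball p h m ν k x s h2
    calc ν s = ENNReal.ofReal (ν.real s) := (ofReal_measureReal).symm
      _ ≤ ENNReal.ofReal (((p : ℝ) ^ (-(k : ℤ))) ^ m) := ENNReal.ofReal_le_ofReal h6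
      _ = ENNReal.ofReal ((p : ℝ) ^ (-(k : ℤ))) ^ m := ENNReal.ofReal_pow (by positivity) _
      _ ≤ Metric.ediam s ^ m := by gcongr
      _ = Metric.ediam s ^ (m : ℝ) := (ENNReal.rpow_natCast _ _).symm
  · push Not at hall
    have ht : Tendsto (fun k : ℕ => ((p : ℝ) ^ (-(k : ℤ))) ^ m) atTop (𝓝 (0 ^ m)) := by
      refine Tendsto.pow ?_ m
      have := tendsto_pow_atTop_nhds_zero_of_lt_one (r := (p : ℝ)⁻¹) (by positivity)
        (inv_lt_one_of_one_lt₀ hp1)
      simpa using this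
    rw [zero_pow hm] at ht
    have h1 : ν.real s ≤ 0 := ge_of_tendsto' ht fun k => dim_ball p h m ν k x s (hall k)
    have h2 : ν s = 0 := by
      rw [← ofReal_measureReal (μ := ν) (s := s), ENNReal.ofReal_eq_zero]
      exact h1
    simp [h2]

theorem dim' (p : ℕ) [Fact p.Prime] [MeasurableSpace ℤ_[p]] [BorelSpace ℤ_[p]] (h : StmtUnif) :
    StmtDim p := by
  intro m ν _ _ E hE
  rcases Nat.eq_zero_or_pos m with rfl | hm
  · simp
  have h1 : ν ≤ Measure.hausdorffMeasure (m : ℝ) :=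
    Measure.le_hausdorffMeasure (m : ℝ) ν 1 one_pos fun s _ => dim_key p h m hm.ne' ν s
  have h2 : Measure.hausdorffMeasure (((m : ℝ≥0) : ℝ)) E ≠ 0 := fun e =>
    hE (le_antisymm ((h1 E).trans (le_of_eq (by simpa using e))) zero_le)
  simpa using le_dimH_of_hausdorffMeasure_ne_zero h2

end Pool.Agent.Work.MP_2a522c_an.Pa
end

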