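import Pool.Agent.Work.MP_2a522c_an.Pa.Defs2

-- merged part: En1B
section
/-! The identities for the densities. -/

open MeasureTheory Finset

namespace Pool.Agent.Work.MP_2a522c_an.Pa

theorem en1b_fin {X H H' : Type} [MeasurableSpace X] [Fintype H] [Fintype H'] [DecidableEq H]
    (μ : Measure X) [IsProbabilityMeasure μ] (f : X → H') (π : H' → H)
    (hf : ∀ c, MeasurableSet (f ⁻¹' {c})) (g : H → ℝ) :
    ∑ c', μ.real (f ⁻¹' {c'}) * g (π c') = ∑ c, μ.real ((fun x => π (f x)) ⁻¹' {c}) * g c := by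
  rw [← Finset.sum_fiberwise_of_maps_to (s := univ) (t := univ) (g := π) (fun _ _ => mem_univ _)]
  refine sum_congr rfl fun c _ => ?_
  rw [sum_congr rfl fun c' hc' => by rw [(mem_filter.1 hc').2], ← sum_mul,
    sum_measureReal_preimage_singleton _ fun c' _ => hf c']
  congr 2
  ext x
  simp

theorem en1b_sq {X H : Type} [MeasurableSpace X] [Fintype H] (μ : Measure X)
    [IsProbabilityMeasure μ] (f : X → H) (hf : ∀ c, MeasurableSet (f ⁻¹' {c})) :
    (μ.prod μ).real {z | f z.1 = f z.2} = ∑ c, μ.real (f ⁻¹' {c}) ^ 2 := by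
  have e : {z : X × X | f z.1 = f z.2} = ⋃ c ∈ (univ : Finset H), (f ⁻¹' {c}) ×ˢ (f ⁻¹' {c}) := by
    ext z
    simp [eq_comm]
  rw [e, measureReal_biUnion_finset]
  · exact sum_congr rfl fun c _ => by rw [measureReal_prod_prod, sq]
  · intro c _ c' _ h
    exact Set.disjoint_left.2 fun z h1 h2 => h (h1.1.symm.trans h2.1)
  · exact fun c _ => (hf c).prod (hf c)

theorem en1b (p : ℕ) [Fact p.Prime] [MeasurableSpace ℤ_[p]] [BorelSpace ℤ_[p]] (h : StmtInt) :
    StmtEn1 p := by
  intro ι _ n μ _ ν _ _ A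
  classical
  have hp : (0 : ℝ) < p := by exact_mod_cast (Fact.out : p.Prime).pos
  have hc : Continuous (mv A) := by
    unfold mv
    fun_prop
  have hf : ∀ k c, MeasurableSet ((fun x => red p k (mv A x)) ⁻¹' {c}) := fun k c =>
    ((isClopen_red p k c).isOpen.preimage hc).measurableSet
  have hI : ∀ (k : ℕ) (f : (ι → ZMod (p ^ k)) → ℝ), Integrable (fun y => f (red p k y)) ν ∧
      ∫ y, f (red p k y) ∂ν = (∑ c, f c) / ((p : ℝ) ^ k) ^ Fintype.card ι := fun k f => by
    have := h _ _ ν (redHom p ι k) (red_surj p ι k)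
      (fun c => (isClopen_red p k c).isOpen.measurableSet) f
    simpa [redHom_apply] using this
  obtain ⟨ρ, hρ⟩ : ∃ ρ : ∀ k, (ι → ZMod (p ^ k)) → ℝ,
      ∀ k c, ρ k c = μ.real ((fun x => red p k (mv A x)) ⁻¹' {c}) := ⟨_, fun _ _ => rfl⟩
  have hd : ∀ k y, dens p μ A k y = ((p : ℝ) ^ k) ^ Fintype.card ι * ρ k (red p k y) :=
    fun k y => by rw [hρ]; rfl
  have hen : ∀ k, en p μ A k = ((p : ℝ) ^ k) ^ Fintype.card ι * ∑ c, ρ k c ^ 2 := fun k => by
    simp only [hρ]
    rw [← en1b_sq μ _ (hf k), en]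
    congr 2
    ext z
    have e1 : mv A (z.1 - z.2) = mv A z.1 - mv A z.2 := by
      funext i
      simp [mv, mul_sub]
    have e2 := (redHom p ι k).map_sub (mv A z.1) (mv A z.2)
    simp only [redHom_apply] at e2
    simp only [Set.mem_ofPred_eq, e1, e2, sub_eq_zero]
  have h2 : ∀ k, Integrable (fun y => dens p μ A k y ^ 2) ν ∧
      ∫ y, dens p μ A k y ^ 2 ∂ν = en p μ A k := fun k => by
    simp only [hd]
    have := hI k fun c => (((p : ℝ) ^ k) ^ Fintype.card ι * ρ k c) ^ 2
    refine ⟨this.1, this.2.trans ?_⟩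
    simp only [mul_pow]
    rw [← mul_sum, hen]
    field_simp
  intro k
  refine ⟨?_, (h2 k).2, ?_⟩
  · simp only [hd]
    rw [(hI k fun c => ((p : ℝ) ^ k) ^ Fintype.card ι * ρ k c).2, ← mul_sum]
    simp only [hρ]
    rw [sum_measureReal_preimage_singleton _ fun c _ => hf k c]
    simp
  · obtain ⟨π, hπ⟩ := Det.exists_fun p (k := k + 1) (f := (red p k : (ι → ℤ_[p]) → _))
      fun y y' e => red_mono p (Nat.le_succ k) e
    have h3 : Integrable (fun y => dens p μ A (k + 1) y * dens p μ A k y) ν ∧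
        ∫ y, dens p μ A (k + 1) y * dens p μ A k y ∂ν = en p μ A k := by
      simp only [hd, hπ]
      have := hI (k + 1) fun c => ((p : ℝ) ^ (k + 1)) ^ Fintype.card ι * ρ (k + 1) c *
        (((p : ℝ) ^ k) ^ Fintype.card ι * ρ k (π c))
      refine ⟨this.1, this.2.trans ?_⟩
      have e := en1b_fin μ _ π (hf (k + 1)) (ρ k)
      simp only [← hπ, ← hρ] at e
      have e2 : ∑ c, ((p : ℝ) ^ (k + 1)) ^ Fintype.card ι * ρ (k + 1) c *
          (((p : ℝ) ^ k) ^ Fintype.card ι * ρ k (π c)) = ((p : ℝ) ^ (k + 1)) ^ Fintype.card ι *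
          (((p : ℝ) ^ k) ^ Fintype.card ι * ∑ c, ρ (k + 1) c * ρ k (π c)) := by
        rw [mul_sum, mul_sum]
        exact sum_congr rfl fun c _ => by ring
      rw [e2, e, hen]
      simp only [sq]
      field_simp
    have e : ∀ y, (dens p μ A (k + 1) y - dens p μ A k y) ^ 2 = dens p μ A (k + 1) y ^ 2 +
        dens p μ A k y ^ 2 - 2 * (dens p μ A (k + 1) y * dens p μ A k y) := fun y => by ring
    simp only [e]
    have h4 : Integrable (fun y => dens p μ A (k + 1) y ^ 2 + dens p μ A k y ^ 2) ν :=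
      (h2 (k + 1)).1.add (h2 k).1
    rw [integral_sub h4 (h3.1.const_mul 2), integral_add (h2 (k + 1)).1 (h2 k).1,
      integral_const_mul, (h2 (k + 1)).2, (h2 k).2, h3.2]
    ring

end Pool.Agent.Work.MP_2a522c_an.Pa
end

-- merged part: En2
section
/-! The probability that a random matrix kills a vector modulo a power of `p`. -/

open MeasureTheory Finset

namespace Pool.Agent.Work.MP_2a522c_an.Pa

variable (p : ℕ) [Fact p.Prime]

theorem en2_zero (k : ℕ) (x : ℤ_[p]) :
    PadicInt.toZModPow k x = 0 ↔ (p : ℤ_[p]) ^ k ∣ x := by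
  rw [← RingHom.mem_ker, PadicInt.ker_toZModPow, Ideal.mem_span_singleton]

theorem en2_ne : (p : ℤ_[p]) ≠ 0 := by
  exact_mod_cast (Fact.out : p.Prime).ne_zero

theorem en2_shift {ι : Type} (v j : ℕ) (y : ι → ℤ_[p]) :
    red p (v + j) (fun i => (p : ℤ_[p]) ^ v * y i) = 0 ↔ red p j y = 0 := by
  simp only [funext_iff, red, Pi.zero_apply, en2_zero, pow_add]
  exact forall_congr' fun i => mul_dvd_mul_iff_left (pow_ne_zero v (en2_ne p))

/-- The map from a matrix to the image of a fixed vector. -/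
noncomputable def en2_hom (ι : Type) {n : ℕ} (z : Fin n → ℤ_[p]) :
    (ι → Fin n → ℤ_[p]) →+ (ι → ℤ_[p]) where
  toFun A := mv A z
  map_zero' := by ext i; simp [mv]
  map_add' A B := by ext i; simp [mv, add_mul, sum_add_distrib]

theorem en2_surj (ι : Type) {n : ℕ} (z : Fin n → ℤ_[p]) (j₀ : Fin n) (hu : IsUnit (z j₀)) :
    Function.Surjective (en2_hom p ι z) := by
  obtain ⟨u, hu⟩ := hu
  intro y
  refine ⟨fun i j => if j = j₀ then y i * (↑u⁻¹ : ℤ_[p]) else 0, ?_⟩
  funext i
  show ∑ j, (if j = j₀ then y i * (↑u⁻¹ : ℤ_[p]) else 0) * z j = y i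
  simp only [ite_mul, zero_mul, sum_ite_eq', mem_univ, if_true]
  rw [← hu, mul_assoc, Units.inv_mul, mul_one]

theorem en2_cont (ι : Type) {n : ℕ} (z : Fin n → ℤ_[p]) : Continuous (en2_hom p ι z) := by
  refine continuous_pi fun i => ?_
  show Continuous fun A : ι → Fin n → ℤ_[p] => ∑ j, A i j * z j
  fun_prop

theorem en2_meas [MeasurableSpace ℤ_[p]] [BorelSpace ℤ_[p]] (h : StmtUnif) (ι : Type) [Fintype ι]
    (n : ℕ) (γ : Measure (ι → Fin n → ℤ_[p])) [IsProbabilityMeasure γ] [γ.IsAddLeftInvariant]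
    (z : Fin n → ℤ_[p]) (j₀ : Fin n) (hu : IsUnit (z j₀)) (m : ℕ) :
    γ.real {A | red p m (mv A z) = 0} = 1 / ((p : ℝ) ^ m) ^ Fintype.card ι := by
  classical
  have : NeZero (p ^ m) := ⟨pow_ne_zero m (Fact.out : p.Prime).ne_zero⟩
  have key := h (ι → Fin n → ℤ_[p]) (ι → ZMod (p ^ m)) γ ((redHom p ι m).comp (en2_hom p ι z))
    ((red_surj p ι m).comp (en2_surj p ι z j₀ hu))
    (fun y => ((isClopen_red p m y).preimage (en2_cont p ι z)).isOpen.measurableSet) {0}
  have e : ((redHom p ι m).comp (en2_hom p ι z)) ⁻¹' (({0} : Finset (ι → ZMod (p ^ m))) : Set _) =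
      {A | red p m (mv A z) = 0} := by
    ext A
    simp only [coe_singleton, Set.mem_preimage, Set.mem_singleton_iff, Set.mem_ofPred_eq]
    rfl
  rw [e] at key
  rw [key]
  simp [Fintype.card_pi, ZMod.card]

theorem en2 (p : ℕ) [Fact p.Prime] [MeasurableSpace ℤ_[p]] [BorelSpace ℤ_[p]] (h : StmtUnif) :
    StmtEn2 p := by
  intro ι _ n γ _ _ k z hz
  have hp : (0 : ℝ) < p := by exact_mod_cast (Fact.out : p.Prime).pos
  obtain ⟨j₁, hj₁⟩ := Function.ne_iff.mp hz
  have : Nonempty (Fin n) := ⟨j₁⟩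
  obtain ⟨j₀, hj₀⟩ := Finite.exists_max fun j => ‖z j‖
  have h1 : ¬ (p : ℤ_[p]) ^ (k + 1) ∣ z j₁ := fun hd => hj₁ ((en2_zero p (k + 1) _).mpr hd)
  have h0 : z j₀ ≠ 0 := by
    intro e
    have := hj₀ j₁
    rw [e, norm_zero, norm_le_zero_iff] at this
    exact h1 (this ▸ dvd_zero _)
  set v := (z j₀).valuation with hv
  have hdvd : ∀ j, (p : ℤ_[p]) ^ v ∣ z j := by
    intro j
    rw [← Ideal.mem_span_singleton, ← PadicInt.norm_le_pow_iff_mem_span_pow]
    exact (hj₀ j).trans (PadicInt.norm_eq_zpow_neg_valuation h0).le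
  have hvk : v ≤ k := by
    by_contra hlt
    exact h1 ((pow_dvd_pow _ (by omega)).trans (hdvd j₁))
  choose z' hz' using hdvd
  have hu : IsUnit (z' j₀) := by
    have e := PadicInt.unitCoeff_spec h0
    have : z' j₀ = (PadicInt.unitCoeff h0 : ℤ_[p]) := by
      apply mul_left_cancel₀ (pow_ne_zero v (en2_ne p))
      rw [← hz' j₀, mul_comm]
      exact e
    rw [this]
    exact Units.isUnit _
  have hmv : ∀ A : ι → Fin n → ℤ_[p], mv A z = fun i => (p : ℤ_[p]) ^ v * mv A z' i := by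
    intro A
    funext i
    simp only [mv, mul_sum]
    exact sum_congr rfl fun j _ => by rw [hz' j]; ring
  obtain ⟨j, rfl⟩ := Nat.exists_eq_add_of_le hvk
  have e1 : {A : ι → Fin n → ℤ_[p] | red p (v + j + 1) (mv A z) = 0} =
      {A | red p (j + 1) (mv A z') = 0} := by
    ext A
    simp only [Set.mem_ofPred_eq, hmv A]
    exact en2_shift p v (j + 1) _
  have e2 : {A : ι → Fin n → ℤ_[p] | red p (v + j) (mv A z) = 0} =
      {A | red p j (mv A z') = 0} := by
    ext A
    simp only [Set.mem_ofPred_eq, hmv A]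
    exact en2_shift p v j _
  rw [e1, e2, en2_meas p h ι n γ z' j₀ hu, en2_meas p h ι n γ z' j₀ hu, pow_succ, mul_pow]
  field_simp

end Pool.Agent.Work.MP_2a522c_an.Pa
end

-- merged part: En3
section
/-! The energy increments decay for almost every matrix. -/

open MeasureTheory Filter
open scoped ENNReal

namespace Pool.Agent.Work.MP_2a522c_an.Pa

theorem en3_swap {α β : Type} [MeasurableSpace α] [MeasurableSpace β] (γ : Measure α)
    (ρ : Measure β) [IsProbabilityMeasure γ] [IsProbabilityMeasure ρ] {Z : Set (α × β)}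
    (hZ : MeasurableSet Z) :
    Integrable (fun a => ρ.real (Prod.mk a ⁻¹' Z)) γ ∧
    Integrable (fun b => γ.real ((fun a => (a, b)) ⁻¹' Z)) ρ ∧
    ∫ a, ρ.real (Prod.mk a ⁻¹' Z) ∂γ = ∫ b, γ.real ((fun a => (a, b)) ⁻¹' Z) ∂ρ := by
  have m1 := measurable_measure_prodMk_left (ν := ρ) hZ
  have m2 := measurable_measure_prodMk_right (μ := γ) hZ
  refine ⟨?_, ?_, ?_⟩
  · exact Integrable.of_bound m1.ennreal_toReal.aestronglyMeasurable 1
      (Eventually.of_forall fun a => by
        rw [Real.norm_of_nonneg measureReal_nonneg]; exact measureReal_le_one)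
  · exact Integrable.of_bound m2.ennreal_toReal.aestronglyMeasurable 1
      (Eventually.of_forall fun a => by
        rw [Real.norm_of_nonneg measureReal_nonneg]; exact measureReal_le_one)
  · simp only [Measure.real]
    rw [integral_toReal m1.aemeasurable (Eventually.of_forall fun a => measure_lt_top _ _),
      integral_toReal m2.aemeasurable (Eventually.of_forall fun a => measure_lt_top _ _),
      ← Measure.prod_apply hZ, ← Measure.prod_apply_symm hZ]

theorem en3_ae {α : Type} [MeasurableSpace α] (γ : Measure α) (d : ℕ → α → ℝ)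
    (hi : ∀ k, Integrable (d k) γ) (h0 : ∀ k a, 0 ≤ d k a) {c r : ℝ} (hr0 : 0 ≤ r) (hr : r < 1)
    (hc : 0 ≤ c) (hb : ∀ k, ∫ a, d k a ∂γ ≤ c * r ^ k) : ∀ᵐ a ∂γ, ∃ b, ∀ k, d k a ≤ b := by
  have hm : ∀ k, AEMeasurable (fun a => ENNReal.ofReal (d k a)) γ := fun k =>
    (hi k).aemeasurable.ennreal_ofReal
  have h1 : ∫⁻ a, ∑' k, ENNReal.ofReal (d k a) ∂γ ≠ ⊤ := by
    rw [lintegral_tsum hm]
    refine ne_top_of_le_ne_top (b := ∑' k, ENNReal.ofReal (c * r ^ k)) ?_
      (ENNReal.tsum_le_tsum fun k => ?_)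
    · rw [← ENNReal.ofReal_tsum_of_nonneg (fun k => by positivity)
        ((summable_geometric_of_lt_one hr0 hr).mul_left c)]
      exact ENNReal.ofReal_ne_top
    · rw [← ofReal_integral_eq_lintegral_ofReal (hi k) (Eventually.of_forall (h0 k))]
      exact ENNReal.ofReal_le_ofReal (hb k)
  filter_upwards [ae_lt_top' (AEMeasurable.tsum hm) h1] with a ha
  exact ⟨_, fun k => (ENNReal.ofReal_le_iff_le_toReal ha.ne).1 (ENNReal.le_tsum k)⟩

theorem en3 (p : ℕ) [Fact p.Prime] [MeasurableSpace ℤ_[p]] [BorelSpace ℤ_[p]] (h : StmtEn2 p) :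
    StmtEn3 p := by
  intro ι _ n μ _ γ _ _ σ q hσ hF hq hq1 hmono
  obtain ⟨B, hB⟩ := hF
  have hp : (0 : ℝ) < p := by exact_mod_cast (Fact.out : p.Prime).pos
  have hq0 : 0 < q := lt_trans (by positivity) hq
  have hB0 : 0 ≤ B := by
    have := measureReal_nonneg.trans (hB 0 0)
    simpa using this
  let Z : ℕ → Set ((ι → Fin n → ℤ_[p]) × ((Fin n → ℤ_[p]) × (Fin n → ℤ_[p]))) := fun k =>
    {u | red p k (mv u.1 (u.2.1 - u.2.2)) = 0}
  have hZ : ∀ k, MeasurableSet (Z k) := fun k => by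
    have hc : Continuous fun u : (ι → Fin n → ℤ_[p]) × ((Fin n → ℤ_[p]) × (Fin n → ℤ_[p])) =>
        mv u.1 (u.2.1 - u.2.2) := by
      unfold mv
      fun_prop
    exact ((isClopen_red p k 0).isOpen.preimage hc).measurableSet
  have hs := fun k => en3_swap γ (μ.prod μ) (hZ k)
  have hen : ∀ k, Integrable (fun A => en p μ A k) γ := fun k => (hs k).1.const_mul _
  have hD : ∀ k, MeasurableSet
      {z : (Fin n → ℤ_[p]) × (Fin n → ℤ_[p]) | red p k (z.1 - z.2) = 0} := fun k =>
    ((isClopen_red p k 0).isOpen.preimage (continuous_fst.sub continuous_snd)).measurableSet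
  have hDle : ∀ k, (μ.prod μ).real {z | red p k (z.1 - z.2) = 0} ≤ B * σ ^ k := fun k => by
    rw [Measure.real, Measure.prod_apply (hD k)]
    refine ENNReal.toReal_le_of_le_ofReal (by positivity) ?_
    refine (lintegral_mono (g := fun _ => ENNReal.ofReal (B * σ ^ k)) fun x => ?_).trans (by simp)
    have e : Prod.mk x ⁻¹' {z : (Fin n → ℤ_[p]) × (Fin n → ℤ_[p]) | red p k (z.1 - z.2) = 0} =
        red p k ⁻¹' {red p k x} := by
      ext y
      have := (redHom p (Fin n) k).map_sub x y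
      simp only [redHom_apply] at this
      simp only [Set.mem_preimage, Set.mem_ofPred_eq, Set.mem_singleton_iff, this, sub_eq_zero]
      exact eq_comm
    show μ _ ≤ _
    rw [e]
    exact (ENNReal.le_ofReal_iff_toReal_le (measure_ne_top _ _) (by positivity)).2 (hB k _)
  obtain ⟨P, hP⟩ : ∃ P : ℕ → (Fin n → ℤ_[p]) × (Fin n → ℤ_[p]) → ℝ, ∀ j z, P j z =
      ((p : ℝ) ^ j) ^ Fintype.card ι * γ.real {A | red p j (mv A (z.1 - z.2)) = 0} :=
    ⟨_, fun _ _ => rfl⟩
  have hPi : ∀ j, Integrable (P j) (μ.prod μ) := fun j => by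
    rw [funext (hP j)]
    exact (hs j).2.1.const_mul _
  have e : ∀ j, ∫ A, en p μ A j ∂γ = ∫ z, P j z ∂(μ.prod μ) := fun j => by
    simp only [hP, en]
    rw [integral_const_mul, integral_const_mul]
    exact congrArg _ (hs j).2.2
  have hI : ∀ k, ∫ A, (en p μ A (k + 1) - en p μ A k) ∂γ ≤
      ((p : ℝ) ^ (k + 1)) ^ Fintype.card ι * (B * σ ^ (k + 1)) := fun k => by
    rw [integral_sub (hen (k + 1)) (hen k), e, e, ← integral_sub (hPi (k + 1)) (hPi k)]
    have hpt : ∀ z, P (k + 1) z - P k z ≤ Set.indicator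
        {z : (Fin n → ℤ_[p]) × (Fin n → ℤ_[p]) | red p (k + 1) (z.1 - z.2) = 0}
        (fun _ => ((p : ℝ) ^ (k + 1)) ^ Fintype.card ι) z := by
      intro z
      by_cases hz : red p (k + 1) (z.1 - z.2) = 0
      · rw [Set.indicator_of_mem (by exact hz), hP, hP]
        have a1 : γ.real {A | red p (k + 1) (mv A (z.1 - z.2)) = 0} ≤ 1 := measureReal_le_one
        have a2 : 0 ≤ ((p : ℝ) ^ k) ^ Fintype.card ι *
            γ.real {A | red p k (mv A (z.1 - z.2)) = 0} := by positivity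
        have a3 := mul_le_mul_of_nonneg_left a1
          (show (0 : ℝ) ≤ ((p : ℝ) ^ (k + 1)) ^ Fintype.card ι by positivity)
        linarith
      · rw [Set.indicator_of_notMem (by exact hz), hP, hP, ← h ι n γ k _ hz, pow_succ, mul_pow]
        exact le_of_eq (by ring)
    refine (integral_mono ((hPi (k + 1)).sub (hPi k))
      ((integrable_const _).indicator (hD (k + 1))) hpt).trans ?_
    rw [integral_indicator_const _ (hD (k + 1)), smul_eq_mul, mul_comm]
    exact mul_le_mul_of_nonneg_left (hDle (k + 1)) (by positivity)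
  have key := en3_ae γ (fun k A => (en p μ A (k + 1) - en p μ A k) / q ^ k)
    (fun k => ((hen (k + 1)).sub (hen k)).div_const _)
    (fun k A => div_nonneg (sub_nonneg.2 (hmono A k)) (by positivity))
    (c := B * ((p : ℝ) ^ Fintype.card ι * σ)) (r := (p : ℝ) ^ Fintype.card ι * σ / q)
    (by positivity) ((div_lt_one hq0).2 hq) (by positivity) fun k => by
      rw [integral_div, div_le_iff₀ (by positivity)]
      refine (hI k).trans (le_of_eq ?_)
      rw [div_pow, ← pow_mul, mul_comm (k + 1), pow_mul]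
      field_simp
      ring
  filter_upwards [key] with A hA
  obtain ⟨b, hb⟩ := hA
  have hb' : ∀ k, en p μ A (k + 1) - en p μ A k ≤ b * q ^ k := fun k =>
    (div_le_iff₀ (by positivity)).1 (hb k)
  have hb0 : 0 ≤ b := by
    have := (sub_nonneg.2 (hmono A 0)).trans (hb' 0)
    simpa using this
  have h1q : 0 < 1 - q := by linarith
  have ht : ∀ k, en p μ A k ≤ 1 + b / (1 - q) * (1 - q ^ k) := fun k => by
    induction k with
    | zero => simp [en]
    | succ k ih =>
      have e : b / (1 - q) * (1 - q ^ (k + 1)) = b / (1 - q) * (1 - q ^ k) + b * q ^ k := by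
        field_simp
        ring
      have := hb' k
      linarith
  have hbb : b ≤ b / (1 - q) := by
    rw [le_div_iff₀ h1q]
    nlinarith
  refine ⟨1 + b / (1 - q), fun k => ⟨(ht k).trans ?_, (hb' k).trans ?_⟩⟩
  · have : 0 ≤ b / (1 - q) * q ^ k := by positivity
    linarith
  · exact mul_le_mul_of_nonneg_right (by linarith) (by positivity)

end Pool.Agent.Work.MP_2a522c_an.Pa
end

-- merged part: Meas
section
/-! The matrices with an image of nonempty interior form a countable union of closed sets. -/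

open MeasureTheory TopologicalSpace

namespace Pool.Agent.Work.MP_2a522c_an.Pa

theorem meas_closed (p : ℕ) [Fact p.Prime] {l n : ℕ} (K : Set (Fin n → ℤ_[p])) (hK : IsCompact K)
    (a : Fin l → ℤ_[p]) : IsClosed {A : Fin l → Fin n → ℤ_[p] | a ∈ mv A '' K} := by
  have hc : Continuous fun z : (Fin l → Fin n → ℤ_[p]) × (Fin n → ℤ_[p]) => mv z.1 z.2 := by
    unfold mv
    fun_prop
  have h1 : IsClosed {z : (Fin l → Fin n → ℤ_[p]) × (Fin n → ℤ_[p]) |
      z.2 ∈ K ∧ mv z.1 z.2 = a} :=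
    (hK.isClosed.preimage continuous_snd).inter (isClosed_eq hc continuous_const)
  have h2 := isClosedMap_fst_of_compactSpace _ h1
  refine Eq.subst (motive := IsClosed) (Eq.symm ?_) h2
  ext A
  constructor
  · rintro ⟨x, hx, e⟩
    exact ⟨(A, x), ⟨hx, e⟩, rfl⟩
  · rintro ⟨z, ⟨hx, e⟩, rfl⟩
    exact ⟨z.2, hx, e⟩

theorem meas (p : ℕ) [Fact p.Prime] [MeasurableSpace ℤ_[p]] [BorelSpace ℤ_[p]] :
    StmtMeas p := by
  intro l n K hK
  have e : {A : Fin l → Fin n → ℤ_[p] | (interior (mv A '' K)).Nonempty} =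
      ⋃ U ∈ countableBasis (Fin l → ℤ_[p]), ⋂ a ∈ U,
        {A : Fin l → Fin n → ℤ_[p] | a ∈ mv A '' K} := by
    ext A
    simp only [Set.mem_ofPred_eq, Set.mem_iUnion, Set.mem_iInter]
    constructor
    · rintro ⟨a, ha⟩
      obtain ⟨U, hU, -, hs⟩ := (isBasis_countableBasis (Fin l → ℤ_[p])).exists_subset_of_mem_open
        ha isOpen_interior
      exact ⟨U, hU, fun b hb => interior_subset (hs hb)⟩
    · rintro ⟨U, hU, h⟩
      obtain ⟨a, ha⟩ := nonempty_of_mem_countableBasis hU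
      exact ⟨a, interior_maximal (fun b hb => h b hb) (isOpen_of_mem_countableBasis hU) ha⟩
  rw [e]
  exact MeasurableSet.biUnion (countable_countableBasis _) fun U _ =>
    (isClosed_biInter fun a _ => meas_closed p K hK a).measurableSet

end Pool.Agent.Work.MP_2a522c_an.Pa
end

-- merged part: Fub
section
/-! From one more row and a shear to the matrix. -/

open MeasureTheory

namespace Pool.Agent.Work.MP_2a522c_an.Pa

theorem fub_uniq {G : Type} [AddCommGroup G] [MeasurableSpace G] [MeasurableAdd₂ G]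
    (μ ν : Measure G) [IsProbabilityMeasure μ] [IsProbabilityMeasure ν] [μ.IsAddLeftInvariant]
    [ν.IsAddLeftInvariant] : μ = ν := by
  ext S hS
  have hm : MeasurableSet {z : G × G | z.1 + z.2 ∈ S} := measurable_add hS
  have h1 := Measure.prod_apply (μ := μ) (ν := ν) hm
  have h2 := Measure.prod_apply_symm (μ := μ) (ν := ν) hm
  have e1 : ∀ x, ν (Prod.mk x ⁻¹' {z : G × G | z.1 + z.2 ∈ S}) = ν S := fun x =>
    measure_preimage_add ν x S
  have e2 : ∀ y, μ ((fun x => (x, y)) ⁻¹' {z : G × G | z.1 + z.2 ∈ S}) = μ S := fun y => by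
    rw [← measure_preimage_add μ y S]
    congr 1
    ext x
    simp [add_comm]
  simp only [e1, lintegral_const, measure_univ, mul_one] at h1
  simp only [e2, lintegral_const, measure_univ, mul_one] at h2
  rw [← h2, h1]

theorem fub (p : ℕ) [Fact p.Prime] [MeasurableSpace ℤ_[p]] [BorelSpace ℤ_[p]] : StmtFub p := by
  intro l n G hG γ _ _ γ' _ _ g _ h
  have hΨ : Measurable fun z : (Option (Fin l) → Fin n → ℤ_[p]) × (Fin l → ℤ_[p]) =>
      fun i j => z.1 (some i) j - z.1 none j * z.2 i := by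
    refine measurable_pi_lambda _ fun i => measurable_pi_lambda _ fun j => ?_
    exact Continuous.measurable (by fun_prop)
  obtain ⟨w, hw⟩ := ((Measure.ae_ae_comm (μ := γ') (ν := g)
    (p := fun A w => (fun i j => A (some i) j - A none j * w i) ∈ G) (hΨ hG)).1 h).exists
  let Ψ : (Option (Fin l) → Fin n → ℤ_[p]) → Fin l → Fin n → ℤ_[p] :=
    fun A i j => A (some i) j - A none j * w i
  have hm : Measurable Ψ := hΨ.comp measurable_prodMk_right
  have : IsProbabilityMeasure (γ'.map Ψ) := Measure.isProbabilityMeasure_map hm.aemeasurable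
  have : (γ'.map Ψ).IsAddLeftInvariant := ⟨fun B => by
    have e : (fun x => B + x) ∘ Ψ = Ψ ∘ fun x => (fun i => i.elim 0 B) + x := by
      funext A i j
      simp [Ψ, add_sub_assoc]
    rw [Measure.map_map (measurable_const_add B) hm, e,
      ← Measure.map_map hm (measurable_const_add _), map_add_left_eq_self]⟩
  rw [fub_uniq γ (γ'.map Ψ)]
  exact (ae_map_iff hm.aemeasurable hG).2 hw

end Pool.Agent.Work.MP_2a522c_an.Pa
end

-- merged part: Bad
section
/-! A set of full measure all of whose projections have empty interior. -/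

open MeasureTheory
open scoped ENNReal

namespace Pool.Agent.Work.MP_2a522c_an.Pa

theorem bad_line (p : ℕ) [Fact p.Prime] [MeasurableSpace ℤ_[p]] [BorelSpace ℤ_[p]]
    (h1 : StmtNull p) (l : ℕ) (hl : 1 ≤ l) (ν : Measure (Fin (l + 1) → ℤ_[p]))
    [IsProbabilityMeasure ν] [ν.IsAddLeftInvariant] (i : Fin (l + 1)) :
    ∃ B : Set (Fin (l + 1) → ℤ_[p]), IsClosed B ∧ ν B = 0 ∧
      ∀ v : Fin (l + 1) → ℤ_[p], v i = 1 → ∃ b, ∀ t : ℤ_[p], b + t • v ∈ B := by
  let e := finSuccEquiv' i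
  let Φ : (Fin (l + 1) → ℤ_[p]) → Option (Fin l) → ℤ_[p] := fun x o => x (e.symm o)
  have hc : Continuous Φ := continuous_pi fun o => continuous_apply _
  have hm : Measurable Φ := hc.measurable
  haveI : IsProbabilityMeasure (ν.map Φ) := Measure.isProbabilityMeasure_map hm.aemeasurable
  haveI : (ν.map Φ).IsAddLeftInvariant := ⟨fun g => by
    have e1 : (fun x => g + x) ∘ Φ = Φ ∘ fun x => (fun j => g (e j)) + x := by
      funext x o
      simp [Φ]
    rw [Measure.map_map (measurable_const_add g) hm, e1,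
      ← Measure.map_map hm (measurable_const_add _), map_add_left_eq_self]⟩
  obtain ⟨B, hB, h0, hw⟩ := h1 l hl (ν.map Φ)
  refine ⟨Φ ⁻¹' B, hB.isClosed.preimage hc, ?_, fun v hv => ?_⟩
  · rwa [Measure.map_apply hm hB.isClosed.measurableSet] at h0
  · obtain ⟨a, ha⟩ := hw fun j => v (e.symm (some j))
    refine ⟨fun j => (e j).elim 0 a, fun t => ?_⟩
    have e2 : Φ ((fun j => (e j).elim 0 a) + t • v) = pt (fun j => v (e.symm (some j))) a t := by
      funext o
      cases o with
      | none =>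
        have e3 : e.symm none = i := finSuccEquiv'_symm_none i
        simp only [Φ, pt, Pi.add_apply, Pi.smul_apply, Equiv.apply_symm_apply, Option.elim,
          smul_eq_mul]
        rw [e3, hv, mul_one, zero_add]
      | some j =>
        simp only [Φ, pt, Pi.add_apply, Pi.smul_apply, Equiv.apply_symm_apply, Option.elim,
          smul_eq_mul]
    rw [Set.mem_preimage, e2]
    exact ha t

theorem bad_cont (p : ℕ) [Fact p.Prime] {l n : ℕ} (A : Fin l → Fin n → ℤ_[p]) :
    Continuous (mv A) :=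
  continuous_pi fun i => continuous_finset_sum _ fun j _ =>
    continuous_const.mul (continuous_apply j)

theorem bad (p : ℕ) [Fact p.Prime] [MeasurableSpace ℤ_[p]] [BorelSpace ℤ_[p]]
    (h1 : StmtNull p) (h2 : StmtKer p) : StmtBad p := by
  intro l hl ν _ _
  choose B hB h0 hv using bad_line p h1 l hl ν
  let c : (Fin (l + 1) → ℕ) → Fin (l + 1) → ℤ_[p] := Pi.map fun _ => Nat.cast
  have hd : DenseRange c := DenseRange.piMap fun _ => PadicInt.denseRange_natCast
  refine ⟨(⋃ i, ⋃ d, (fun x => -c d + x) ⁻¹' B i)ᶜ, ?_, ?_, fun A => ?_⟩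
  · exact (MeasurableSet.iUnion fun i => MeasurableSet.iUnion fun d =>
      measurable_const_add _ (hB i).measurableSet).compl
  · rw [compl_compl]
    refine measure_iUnion_null fun i => measure_iUnion_null fun d => ?_
    rw [measure_preimage_add, h0]
  · by_contra hne
    obtain ⟨y, hy⟩ := Set.nonempty_iff_ne_empty.2 hne
    obtain ⟨v, i, hi, hker⟩ := h2 l A ⟨y, interior_mono (Set.image_subset_range _ _) hy⟩
    obtain ⟨b, hb⟩ := hv i v hi
    obtain ⟨x0, -, hx0⟩ := interior_subset hy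
    obtain ⟨d, hd'⟩ := hd.exists_mem_open
      (isOpen_interior.preimage ((bad_cont p A).comp (continuous_const_add b)))
      ⟨x0 - b, by
        rw [Set.mem_preimage, Function.comp_apply, add_sub_cancel, hx0]
        exact hy⟩
    obtain ⟨x, hx, e⟩ := interior_subset (Set.mem_preimage.1 hd')
    have hz : mv A (x - (b + c d)) = 0 := by
      funext k
      have := congrFun e k
      simp only [mv, Function.comp_apply, Pi.sub_apply, mul_sub, Finset.sum_sub_distrib,
        Pi.zero_apply] at this ⊢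
      rw [this, sub_self]
    refine hx (Set.mem_iUnion.2 ⟨i, Set.mem_iUnion.2 ⟨d, ?_⟩⟩)
    have e2 : -c d + x = b + (x - (b + c d)) i • v := by
      rw [← hker _ hz]
      ring
    rw [Set.mem_preimage, e2]
    exact hb _

end Pool.Agent.Work.MP_2a522c_an.Pa
end

-- merged part: Asm
section
/-! Assembly of the `p`-adic projection theorem. -/

open MeasureTheory
open scoped ENNReal

namespace Pool.Agent.Work.MP_2a522c_an.Pa

theorem asm_haar (G : Type) [AddCommGroup G] [TopologicalSpace G] [IsTopologicalAddGroup G]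
    [CompactSpace G] [MeasurableSpace G] [BorelSpace G] :
    ∃ ν : Measure G, IsProbabilityMeasure ν ∧ ν.IsAddLeftInvariant :=
  ⟨Measure.addHaarMeasure ⊤, ⟨Measure.addHaarMeasure_self (K₀ := ⊤)⟩, inferInstance⟩

variable (p : ℕ) [Fact p.Prime] [MeasurableSpace ℤ_[p]] [BorelSpace ℤ_[p]]

theorem asm_compact (h1 : StmtCore p) (h2 : StmtEn1 p) (h3 : StmtEn3 p) (h4 : StmtMeas p)
    (h5 : StmtFub p) {n l : ℕ} (γ : Measure (Fin l → Fin n → ℤ_[p])) [IsProbabilityMeasure γ]
    [γ.IsAddLeftInvariant] {K : Set (Fin n → ℤ_[p])} (hK : IsCompact K)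
    (μ : Measure (Fin n → ℤ_[p])) [IsProbabilityMeasure μ] (hμ : μ Kᶜ = 0) {σ : ℝ} (hσ : 0 < σ)
    (hF : Frost p μ σ) (hs : (p : ℝ) ^ (l + 1) * σ < 1) :
    ∀ᵐ A ∂γ, (interior (mv A '' K)).Nonempty := by
  obtain ⟨γ', _, _⟩ := asm_haar (Option (Fin l) → Fin n → ℤ_[p])
  obtain ⟨g, _, _⟩ := asm_haar (Fin l → ℤ_[p])
  obtain ⟨ν, _, _⟩ := asm_haar (Option (Fin l) → ℤ_[p])
  obtain ⟨q, hq1, hq2⟩ := exists_between hs
  have hp : (0 : ℝ) < p := by exact_mod_cast (Fact.out : p.Prime).pos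
  have hq0 : 0 < q := lt_trans (by positivity) hq1
  refine h5 l n _ (h4 l n K hK) γ γ' g ?_
  have hmono : ∀ (A : Option (Fin l) → Fin n → ℤ_[p]) (k : ℕ),
      en p μ A k ≤ en p μ A (k + 1) := by
    intro A k
    have e := (h2 _ n μ ν A k).2.2
    have : 0 ≤ ∫ y, (dens p μ A (k + 1) y - dens p μ A k y) ^ 2 ∂ν :=
      integral_nonneg fun y => sq_nonneg _
    linarith
  filter_upwards [h3 (Option (Fin l)) n μ γ' σ q hσ hF (by simpa using hq1) hq2 hmono] with A hA
  obtain ⟨B, hB⟩ := hA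
  have hc : Continuous (mv A) := by
    unfold mv
    fun_prop
  have key := h1 l g ν (dens p μ A) B q (mv A '' K) hq0 hq2
    (fun k y y' e => by unfold dens; rw [e]) (fun k y => by unfold dens; positivity)
    (fun k => (h2 _ n μ ν A k).1) (fun k => (h2 _ n μ ν A k).2.1.le.trans (hB k).1)
    (fun k => (h2 _ n μ ν A k).2.2.le.trans (hB k).2) (hK.image hc) (fun k y hy => by
      by_contra hn
      have h0 : μ {x | red p k (mv A x) = red p k y} = 0 :=
        measure_mono_null (fun x hx hxK => hn ⟨_, ⟨x, hxK, rfl⟩, hx⟩) hμ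
      simp [dens, Measure.real, h0] at hy)
  filter_upwards [key] with w hw
  have e : (fun (y : Option (Fin l) → ℤ_[p]) i => y (some i) - y none * w i) '' (mv A '' K) =
      mv (fun i j => A (some i) j - A none j * w i) '' K := by
    rw [Set.image_image]
    refine Set.image_congr fun x _ => funext fun i => ?_
    simp only [mv]
    rw [Finset.sum_mul, ← Finset.sum_sub_distrib]
    exact Finset.sum_congr rfl fun j _ => by ring
  rw [e] at hw
  exact hw

theorem asm (h1 : StmtCore p) (h2 : StmtEn1 p) (h3 : StmtEn3 p) (h4 : StmtMeas p)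
    (h5 : StmtFub p) (h6 : StmtCap p) (h7 : StmtFrost p) {n l : ℕ}
    (γ : Measure (Fin l → Fin n → ℤ_[p])) [IsProbabilityMeasure γ] [γ.IsAddLeftInvariant]
    {E : Set (Fin n → ℤ_[p])} (hE : MeasurableSet E) (h : (l : ℝ≥0∞) + 1 < dimH E) :
    ∀ᵐ A ∂γ, (interior (mv A '' E)).Nonempty := by
  obtain ⟨s, hs1, hs2⟩ := ENNReal.lt_iff_exists_nnreal_btwn.1 h
  have hs : (l : ℝ) + 1 < s := by exact_mod_cast hs1
  have hl : (0 : ℝ) ≤ l := Nat.cast_nonneg _
  have hp : (1 : ℝ) < p := by exact_mod_cast (Fact.out : p.Prime).one_lt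
  obtain ⟨K, hKE, hK, hc⟩ := h6 n E s hE (by linarith) (by rwa [ENNReal.ofReal_coe_nnreal])
  have hσ : 0 < (p : ℝ) ^ (-(s : ℝ)) := Real.rpow_pos_of_pos (by linarith) _
  obtain ⟨μ, _, hμ, hF⟩ := h7 n K _ hK hσ
    (Real.rpow_le_one_of_one_le_of_nonpos hp.le (by linarith)) hc
  have hlt : (p : ℝ) ^ (l + 1) * (p : ℝ) ^ (-(s : ℝ)) < 1 := by
    rw [← Real.rpow_natCast, ← Real.rpow_add (by linarith)]
    exact Real.rpow_lt_one_of_one_lt_of_neg hp (by push_cast; linarith)
  filter_upwards [asm_compact p h1 h2 h3 h4 h5 γ hK μ hμ hσ hF hlt] with A hA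
  exact hA.mono (interior_mono (Set.image_mono hKE))

end Pool.Agent.Work.MP_2a522c_an.Pa
end

-- merged part: Sharp
section
/-! The threshold cannot be lowered. -/

open MeasureTheory
open scoped ENNReal

namespace Pool.Agent.Work.MP_2a522c_an.Pa

theorem sharp (p : ℕ) [Fact p.Prime] [MeasurableSpace ℤ_[p]] [BorelSpace ℤ_[p]] (h1 : StmtBad p)
    (h2 : StmtDim p) {n l : ℕ} (hl : 1 ≤ l) (hn : l < n) :
    ∃ E : Set (Fin n → ℤ_[p]), MeasurableSet E ∧ (l : ℝ≥0∞) + 1 ≤ dimH E ∧
      ∀ A : Fin l → Fin n → ℤ_[p], interior (mv A '' E) = ∅ := by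
  classical
  obtain ⟨ν, _, _⟩ := asm_haar (Fin (l + 1) → ℤ_[p])
  obtain ⟨E, hE, hν, hA⟩ := h1 l hl ν
  have hinj : Function.Injective (Fin.castLE (show l + 1 ≤ n from hn)) := Fin.castLE_injective _
  let π : (Fin n → ℤ_[p]) → Fin (l + 1) → ℤ_[p] := fun x j => x (Fin.castLE hn j)
  have hπ : LipschitzWith 1 π := LipschitzWith.of_dist_le_mul fun x y => by
    rw [NNReal.coe_one, one_mul]
    exact (dist_pi_le_iff dist_nonneg).2 fun j => dist_le_pi_dist x y _
  let Z : Set (Fin n → ℤ_[p]) := ⋂ j ∈ (Set.range (Fin.castLE (show l + 1 ≤ n from hn)))ᶜ,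
    {x | x j = 0}
  have hZ : IsClosed Z := isClosed_biInter fun j _ => isClosed_eq (continuous_apply j)
    continuous_const
  refine ⟨π ⁻¹' E ∩ Z, (hπ.continuous.measurable hE).inter hZ.measurableSet, ?_, fun A => ?_⟩
  · have h3 : ν E ≠ 0 := fun h0 => by
      have := measure_univ_le_add_compl (μ := ν) E
      rw [h0, hν, measure_univ] at this
      simp at this
    have h4 := h2 (l + 1) ν E h3
    push_cast at h4
    refine h4.trans (le_trans (dimH_mono fun y hy => ?_) (hπ.dimH_image_le _))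
    have e : π (Function.extend (Fin.castLE hn) y 0) = y := funext fun j => hinj.extend_apply _ _ j
    refine ⟨Function.extend (Fin.castLE hn) y 0, ⟨by rwa [Set.mem_preimage, e], ?_⟩, e⟩
    exact Set.mem_iInter₂.2 fun j hj => Function.extend_apply' _ _ _ hj
  · refine Set.eq_empty_of_subset_empty
      ((interior_mono ?_).trans (hA fun i j => A i (Fin.castLE hn j)).subset)
    rintro _ ⟨x, ⟨hx, hxZ⟩, rfl⟩
    refine ⟨π x, hx, funext fun i => ?_⟩
    refine Fintype.sum_of_injective _ hinj _ _ (fun j hj => ?_) fun j => rfl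
    have : x j = 0 := Set.mem_iInter₂.1 hxZ j hj
    rw [this, mul_zero]

end Pool.Agent.Work.MP_2a522c_an.Pa
end

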