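import Mathlib

/-! Interior of projections over the `p`-adic integers: definitions and statements. -/

open MeasureTheory Finset Polynomial
open scoped ENNReal

namespace Pool.Agent.Work.MP_2a522c_an.Pa

/-- The point with parameter `t` of the line with direction `(1, w)` and offset `a`. -/
def pt {l : ℕ} {R : Type} [CommRing R] (w a : Fin l → R) (t : R) : Option (Fin l) → R :=
  fun i => i.elim t fun i => a i + t * w i

/-- The linear map with rows `A i`. -/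
def mv {ι R : Type} {n : ℕ} [CommRing R] (A : ι → Fin n → R) (x : Fin n → R) : ι → R :=
  fun i => ∑ j, A i j * x j

/-- One-variable interpolation with loss `e`. -/
def StmtLag : Prop :=
  ∀ (R : Type) [CommRing R] [IsDomain R] (π : R), Prime π → ∀ (d e m : ℕ) (x q : Fin d → R),
    (∀ s, ¬ π ^ (e + 1) ∣ ∏ t ∈ univ.erase s, (x s - x t)) →
    (∀ s, π ^ (m + e) ∣ ∑ j, q j * x s ^ (j : ℕ)) → ∀ j, π ^ m ∣ q j

/-- Covering a finite group by translates. -/
def StmtCover : Prop :=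
  ∀ (G : Type) [AddCommGroup G] [Fintype G] (Ω : Finset G), Ω.Nonempty →
    ∃ T : Finset G, (∀ g, ∃ v ∈ T, g - v ∈ Ω) ∧
      (#T : ℝ) * #Ω ≤ Fintype.card G * (Real.log (Fintype.card G) + 1)

/-- The image of an invariant probability measure in a finite quotient is uniform. -/
def StmtUnif : Prop :=
  ∀ (G H : Type) [AddCommGroup G] [MeasurableSpace G] [MeasurableAdd G] [AddCommGroup H]
    [Fintype H] (γ : Measure G) [IsProbabilityMeasure γ] [γ.IsAddLeftInvariant] (φ : G →+ H),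
    Function.Surjective φ → (∀ y, MeasurableSet (φ ⁻¹' {y})) →
    ∀ T : Finset H, γ.real (φ ⁻¹' (T : Set H)) = #T / Fintype.card H

/-- The integral of a function of the class in a finite quotient. -/
def StmtInt : Prop :=
  ∀ (G H : Type) [AddCommGroup G] [MeasurableSpace G] [MeasurableAdd G] [AddCommGroup H]
    [Fintype H] (γ : Measure G) [IsProbabilityMeasure γ] [γ.IsAddLeftInvariant] (φ : G →+ H),
    Function.Surjective φ → (∀ y, MeasurableSet (φ ⁻¹' {y})) →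
    ∀ f : H → ℝ, Integrable (fun x => f (φ x)) γ ∧ ∫ x, f (φ x) ∂γ = (∑ y, f y) / Fintype.card H

variable (p : ℕ) [Fact p.Prime]

/-- The order of vanishing at one of the interpolation denominators. -/
def StmtVal : Prop :=
  ∀ (F : Type) [Field F] [CharP F p] (d k : ℕ), d ≤ p ^ k → ∀ s : Fin d,
    ¬ (X - 1 : F[X]) ^ (p * d * (k + 1) + 1) ∣
      ∏ t ∈ univ.erase s, ((X : F[X]) ^ (1 + p * (s : ℕ)) - X ^ (1 + p * (t : ℕ)))

/-- The relation obtained from a small set. -/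
def Rel (l k r d : ℕ) (F : Type) [Field F] (c : (Option (Fin l) → Fin d) → F) : Prop :=
  ∀ w : Fin l → ZMod (p ^ k), (X - 1 : F[X]) ^ r ∣
    ∑ j, C (c j) * X ^ ((j none : ℕ) + ∑ i, (w i).val * (j (some i) : ℕ))

/-- The relation is trivial. -/
def StmtVand : Prop :=
  ∀ (l k r d : ℕ) (F : Type) [Field F] [CharP F p] (c : (Option (Fin l) → Fin d) → F),
    r ≤ p ^ k → (l + 1) * (p * d * (k + 1)) < r → Rel p l k r d F c → c = 0

open Classical in
/-- The number of points of `S` on a line. -/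
noncomputable def cnt {l k : ℕ} (S : Finset (Option (Fin l) → ZMod (p ^ k)))
    (w a : Fin l → ZMod (p ^ k)) : ℕ := #(univ.filter fun t => pt w a t ∈ S)

/-- A small set with a rich line in every direction gives a relation. -/
def StmtRed : Prop :=
  ∀ (l k r d : ℕ) (S : Finset (Option (Fin l) → ZMod (p ^ k))), (∀ w, ∃ a, r ≤ cnt p S w a) →
    #S < d ^ (l + 1) → ∃ (F : Type) (_ : Field F) (_ : CharP F p)
      (c : (Option (Fin l) → Fin d) → F), c ≠ 0 ∧ Rel p l k r d F c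

/-- The Kakeya estimate modulo `p ^ k`. -/
def StmtKak : Prop :=
  ∀ l : ℕ, ∃ c : ℝ, ∀ (k r : ℕ) (S : Finset (Option (Fin l) → ZMod (p ^ k)))
    (Ω : Finset (Fin l → ZMod (p ^ k))), 1 ≤ r → (∀ w ∈ Ω, ∃ a, r ≤ cnt p S w a) →
    (#Ω : ℝ) * (r : ℝ) ^ (l + 1) ≤ c * ((k : ℝ) + 1) ^ (l + 2) * ((p : ℝ) ^ k) ^ l * #S

/-- Reduction modulo `p ^ k`. -/
noncomputable def red {ι : Type} (k : ℕ) (y : ι → ℤ_[p]) : ι → ZMod (p ^ k) :=
  fun i => PadicInt.toZModPow k (y i)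

/-- `f` depends only on the reduction modulo `p ^ k`. -/
def Det {ι α : Type} (k : ℕ) (f : (ι → ℤ_[p]) → α) : Prop :=
  ∀ y y', red p k y = red p k y' → f y = f y'

/-- The net content. -/
noncomputable def cont {n : ℕ} (σ : ℝ) (A : Set (Fin n → ℤ_[p])) : ℝ≥0∞ :=
  ⨅ (U : Set (Σ k : ℕ, Fin n → ZMod (p ^ k))) (_ : A ⊆ ⋃ c ∈ U, red p c.1 ⁻¹' {c.2}),
    ∑' c : U, ENNReal.ofReal (σ ^ c.1.1)

variable [MeasurableSpace ℤ_[p]]

/-- The Frostman condition with ratio `σ`. -/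
def Frost {n : ℕ} (μ : Measure (Fin n → ℤ_[p])) (σ : ℝ) : Prop :=
  ∃ B : ℝ, ∀ (k : ℕ) (c : Fin n → ZMod (p ^ k)), μ.real (red p k ⁻¹' {c}) ≤ B * σ ^ k

/-- The density at level `k` of the image of `μ` under `A`. -/
noncomputable def dens {ι : Type} [Fintype ι] {n : ℕ} (μ : Measure (Fin n → ℤ_[p]))
    (A : ι → Fin n → ℤ_[p]) (k : ℕ) (y : ι → ℤ_[p]) : ℝ :=
  ((p : ℝ) ^ k) ^ Fintype.card ι * μ.real {x | red p k (mv A x) = red p k y}

/-- The energy at level `k`. -/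
noncomputable def en {ι : Type} [Fintype ι] {n : ℕ} (μ : Measure (Fin n → ℤ_[p]))
    (A : ι → Fin n → ℤ_[p]) (k : ℕ) : ℝ :=
  ((p : ℝ) ^ k) ^ Fintype.card ι * (μ.prod μ).real {z | red p k (mv A (z.1 - z.2)) = 0}

/-- A Borel set of large dimension contains a compact set of positive content. -/
def StmtCap : Prop :=
  ∀ (n : ℕ) (E : Set (Fin n → ℤ_[p])) (s : ℝ), MeasurableSet E → 0 < s →
    ENNReal.ofReal s < dimH E → ∃ K ⊆ E, IsCompact K ∧ 0 < cont p ((p : ℝ) ^ (-s)) K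

/-- Frostman for compact sets. -/
def StmtFrost : Prop :=
  ∀ (n : ℕ) (K : Set (Fin n → ℤ_[p])) (σ : ℝ), IsCompact K → 0 < σ → σ ≤ 1 → 0 < cont p σ K →
    ∃ μ : Measure (Fin n → ℤ_[p]), IsProbabilityMeasure μ ∧ μ Kᶜ = 0 ∧ Frost p μ σ

/-- The Kakeya estimate over the `p`-adic integers. -/
def StmtKakC : Prop :=
  ∀ l : ℕ, ∃ c : ℝ, ∀ (h : Measure ℤ_[p]) [IsProbabilityMeasure h] [h.IsAddLeftInvariant]
    (g : Measure (Fin l → ℤ_[p])) [IsProbabilityMeasure g] [g.IsAddLeftInvariant]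
    (ν : Measure (Option (Fin l) → ℤ_[p])) [IsProbabilityMeasure ν] [ν.IsAddLeftInvariant]
    (k : ℕ) (S : Set (Option (Fin l) → ℤ_[p])) (u : ℝ), Det p k (fun y => y ∈ S) → 0 < u →
    g.real {w | ∃ a, u ≤ h.real {t | pt w a t ∈ S}} * u ^ (l + 1) ≤
      c * ((k : ℝ) + 1) ^ (l + 2) * ν.real S

/-- Some line in each direction has at least the mean value. -/
def StmtLine : Prop :=
  ∀ (l : ℕ) (h : Measure ℤ_[p]) [IsProbabilityMeasure h] [h.IsAddLeftInvariant]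
    (ν : Measure (Option (Fin l) → ℤ_[p])) [IsProbabilityMeasure ν] [ν.IsAddLeftInvariant]
    (k : ℕ) (f : (Option (Fin l) → ℤ_[p]) → ℝ), Det p k f → ∀ w,
    ∃ a, ∫ y, f y ∂ν ≤ ∫ t, f (pt w a t) ∂h

/-- Off a null set of directions the truncated line integrals converge uniformly. -/
def StmtTail : Prop :=
  ∀ (l : ℕ) (h : Measure ℤ_[p]) [IsProbabilityMeasure h] [h.IsAddLeftInvariant]
    (g : Measure (Fin l → ℤ_[p])) [IsProbabilityMeasure g] [g.IsAddLeftInvariant]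
    (ν : Measure (Option (Fin l) → ℤ_[p])) [IsProbabilityMeasure ν] [ν.IsAddLeftInvariant]
    (f : ℕ → (Option (Fin l) → ℤ_[p]) → ℝ) (B q : ℝ), 0 < q → q < 1 → (∀ k, Det p k (f k)) →
    (∀ k y, 0 ≤ f k y ∧ f k y ≤ 1) → (∀ k, ∫ y, (f (k + 1) y - f k y) ^ 2 ∂ν ≤ B * q ^ k) →
    ∀ᵐ w ∂g, ∀ ε : ℝ, 0 < ε → ∃ k₀, ∀ k, k₀ ≤ k → ∀ a,
      ∫ t, f k₀ (pt w a t) ∂h - ε ≤ ∫ t, f k (pt w a t) ∂h

/-- The deterministic core. -/
def StmtCore : Prop :=
  ∀ (l : ℕ) (g : Measure (Fin l → ℤ_[p])) [IsProbabilityMeasure g] [g.IsAddLeftInvariant]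
    (ν : Measure (Option (Fin l) → ℤ_[p])) [IsProbabilityMeasure ν] [ν.IsAddLeftInvariant]
    (f : ℕ → (Option (Fin l) → ℤ_[p]) → ℝ) (B q : ℝ) (F : Set (Option (Fin l) → ℤ_[p])),
    0 < q → q < 1 → (∀ k, Det p k (f k)) → (∀ k y, 0 ≤ f k y) → (∀ k, ∫ y, f k y ∂ν = 1) →
    (∀ k, ∫ y, f k y ^ 2 ∂ν ≤ B) → (∀ k, ∫ y, (f (k + 1) y - f k y) ^ 2 ∂ν ≤ B * q ^ k) →
    IsCompact F → (∀ k y, 0 < f k y → ∃ y' ∈ F, red p k y' = red p k y) →
    ∀ᵐ w ∂g, (interior ((fun y i => y (some i) - y none * w i) '' F)).Nonempty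

/-- The identities for the densities. -/
def StmtEn1 : Prop :=
  ∀ (ι : Type) [Fintype ι] (n : ℕ) (μ : Measure (Fin n → ℤ_[p])) [IsProbabilityMeasure μ]
    (ν : Measure (ι → ℤ_[p])) [IsProbabilityMeasure ν] [ν.IsAddLeftInvariant]
    (A : ι → Fin n → ℤ_[p]) (k : ℕ),
    ∫ y, dens p μ A k y ∂ν = 1 ∧ ∫ y, dens p μ A k y ^ 2 ∂ν = en p μ A k ∧
      ∫ y, (dens p μ A (k + 1) y - dens p μ A k y) ^ 2 ∂ν = en p μ A (k + 1) - en p μ A k

/-- The probability that a random matrix kills a vector modulo `p ^ k`. -/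
def StmtEn2 : Prop :=
  ∀ (ι : Type) [Fintype ι] (n : ℕ) (γ : Measure (ι → Fin n → ℤ_[p])) [IsProbabilityMeasure γ]
    [γ.IsAddLeftInvariant] (k : ℕ) (z : Fin n → ℤ_[p]), red p (k + 1) z ≠ 0 →
    (p : ℝ) ^ Fintype.card ι * γ.real {A | red p (k + 1) (mv A z) = 0} =
      γ.real {A | red p k (mv A z) = 0}

/-- The energy increments decay for almost every matrix. -/
def StmtEn3 : Prop :=
  ∀ (ι : Type) [Fintype ι] (n : ℕ) (μ : Measure (Fin n → ℤ_[p])) [IsProbabilityMeasure μ]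
    (γ : Measure (ι → Fin n → ℤ_[p])) [IsProbabilityMeasure γ] [γ.IsAddLeftInvariant] (σ q : ℝ),
    0 < σ → Frost p μ σ → (p : ℝ) ^ Fintype.card ι * σ < q → q < 1 →
    (∀ (A : ι → Fin n → ℤ_[p]) (k : ℕ), en p μ A k ≤ en p μ A (k + 1)) →
    ∀ᵐ A ∂γ, ∃ B : ℝ, ∀ k, en p μ A k ≤ B ∧ en p μ A (k + 1) - en p μ A k ≤ B * q ^ k

/-- The good matrices form a Borel set. -/
def StmtMeas : Prop :=
  ∀ (l n : ℕ) (K : Set (Fin n → ℤ_[p])), IsCompact K →
    MeasurableSet {A : Fin l → Fin n → ℤ_[p] | (interior (mv A '' K)).Nonempty}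

/-- From one more row and a shear to the matrix. -/
def StmtFub : Prop :=
  ∀ (l n : ℕ) (G : Set (Fin l → Fin n → ℤ_[p])), MeasurableSet G →
    ∀ (γ : Measure (Fin l → Fin n → ℤ_[p])) [IsProbabilityMeasure γ] [γ.IsAddLeftInvariant]
    (γ' : Measure (Option (Fin l) → Fin n → ℤ_[p])) [IsProbabilityMeasure γ']
    [γ'.IsAddLeftInvariant] (g : Measure (Fin l → ℤ_[p])) [IsProbabilityMeasure g],
    (∀ᵐ A ∂γ', ∀ᵐ w ∂g, (fun i j => A (some i) j - A none j * w i) ∈ G) → ∀ᵐ A ∂γ, A ∈ G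

/-! Basic facts on the reduction. -/

omit [MeasurableSpace ℤ_[p]]

/-- The reduction as a homomorphism. -/
noncomputable def redHom (ι : Type) (k : ℕ) : (ι → ℤ_[p]) →+ (ι → ZMod (p ^ k)) where
  toFun := red p k
  map_zero' := by ext i; simp [red]
  map_add' y y' := by ext i; simp [red]

theorem redHom_apply {ι : Type} (k : ℕ) (y : ι → ℤ_[p]) : redHom p ι k y = red p k y := rfl

theorem toZ_surj (k : ℕ) : Function.Surjective (PadicInt.toZModPow (p := p) k) :=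
  ZMod.ringHom_surjective _

theorem red_surj (ι : Type) (k : ℕ) : Function.Surjective (red p k : (ι → ℤ_[p]) → _) :=
  fun c => ⟨fun i => (toZ_surj p k (c i)).choose, funext fun i => (toZ_surj p k (c i)).choose_spec⟩

theorem toZ_eq_iff (k : ℕ) (x y : ℤ_[p]) : PadicInt.toZModPow k x = PadicInt.toZModPow k y ↔
    ‖x - y‖ ≤ (p : ℝ) ^ (-(k : ℤ)) := by
  rw [← sub_eq_zero, ← map_sub, ← RingHom.mem_ker, PadicInt.ker_toZModPow,
    PadicInt.norm_le_pow_iff_mem_span_pow]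

theorem red_eq_iff {ι : Type} [Fintype ι] (k : ℕ) (x y : ι → ℤ_[p]) :
    red p k x = red p k y ↔ dist x y ≤ (p : ℝ) ^ (-(k : ℤ)) := by
  have hp : (0 : ℝ) < p := by exact_mod_cast (Fact.out : p.Prime).pos
  rw [dist_pi_le_iff (by positivity), funext_iff]
  exact forall_congr' fun i => by rw [dist_eq_norm]; exact toZ_eq_iff p k _ _

theorem red_mono {ι : Type} {k k' : ℕ} (h : k ≤ k') {x y : ι → ℤ_[p]}
    (e : red p k' x = red p k' y) : red p k x = red p k y := by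
  have hp : (1 : ℝ) ≤ p := by exact_mod_cast (Fact.out : p.Prime).one_lt.le
  funext i
  refine (toZ_eq_iff p k _ _).2 (((toZ_eq_iff p k' _ _).1 (congrFun e i)).trans ?_)
  exact zpow_le_zpow_right₀ hp (by omega)

theorem isClopen_toZ (k : ℕ) (c : ZMod (p ^ k)) :
    IsClopen (PadicInt.toZModPow (p := p) k ⁻¹' {c}) := by
  have hp : (0 : ℝ) < p := by exact_mod_cast (Fact.out : p.Prime).pos
  obtain ⟨y, rfl⟩ := toZ_surj p k c
  have : PadicInt.toZModPow (p := p) k ⁻¹' {PadicInt.toZModPow k y} =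
      Metric.closedBall y ((p : ℝ) ^ (-(k : ℤ))) := by
    ext x
    rw [Metric.mem_closedBall, dist_eq_norm]
    exact toZ_eq_iff p k x y
  rw [this]
  exact IsUltrametricDist.isClopen_closedBall y (by positivity)

theorem isClopen_red {ι : Type} [Fintype ι] (k : ℕ) (c : ι → ZMod (p ^ k)) :
    IsClopen (red p k ⁻¹' {c} : Set (ι → ℤ_[p])) := by
  have : (red p k ⁻¹' {c} : Set (ι → ℤ_[p])) =
      ⋂ i, (fun y => y i) ⁻¹' (PadicInt.toZModPow (p := p) k ⁻¹' {c i}) := by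
    ext y
    simp [red, funext_iff]
  rw [this]
  exact isClopen_iInter_of_finite fun i => (isClopen_toZ p k (c i)).preimage (continuous_apply i)

theorem red_pt {l : ℕ} (k : ℕ) (w a : Fin l → ℤ_[p]) (t : ℤ_[p]) :
    red p k (pt w a t) = pt (red p k w) (red p k a) (PadicInt.toZModPow k t) := by
  funext i
  cases i <;> simp [red, pt]

theorem Det.exists_fun {ι α : Type} {k : ℕ} {f : (ι → ℤ_[p]) → α} (h : Det p k f) :
    ∃ F : (ι → ZMod (p ^ k)) → α, ∀ y, f y = F (red p k y) :=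
  ⟨fun c => f (red_surj p ι k c).choose, fun y => h _ _ (red_surj p ι k _).choose_spec.symm⟩

end Pool.Agent.Work.MP_2a522c_an.Pa
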