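import Pool.Agent.Work.MP_2a522c_an.Pa.Defs

/-! Statements for the sharpness of the threshold. -/

open MeasureTheory
open scoped ENNReal

namespace Pool.Agent.Work.MP_2a522c_an.Pa

variable (p : ℕ) [Fact p.Prime]

/-- The offset function of a null Besicovitch set. -/
def StmtPhi : Prop :=
  ∃ φ : ℤ_[p] → ℤ_[p], Continuous φ ∧ ∀ a j : ℕ, ∃ K : ℕ, ∀ t w w' : ℤ_[p],
    PadicInt.toZModPow j t = (a : ZMod (p ^ j)) → PadicInt.toZModPow K w = PadicInt.toZModPow K w' →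
    PadicInt.toZModPow (K + j) (φ w + t * w) = PadicInt.toZModPow (K + j) (φ w' + t * w')

/-- The kernel of a matrix with open range is a line. -/
def StmtKer : Prop :=
  ∀ (l : ℕ) (A : Fin l → Fin (l + 1) → ℤ_[p]), (interior (Set.range (mv A))).Nonempty →
    ∃ (v : Fin (l + 1) → ℤ_[p]) (i : Fin (l + 1)), v i = 1 ∧ ∀ z, mv A z = 0 → z = z i • v

variable [MeasurableSpace ℤ_[p]]

/-- A compact null set with a line in every direction `(1, w)`. -/
def StmtNull : Prop :=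
  ∀ (l : ℕ), 1 ≤ l → ∀ (ν : Measure (Option (Fin l) → ℤ_[p])) [IsProbabilityMeasure ν]
    [ν.IsAddLeftInvariant], ∃ B, IsCompact B ∧ ν B = 0 ∧ ∀ w, ∃ a, ∀ t, pt w a t ∈ B

/-- A set of positive Haar measure has full dimension. -/
def StmtDim : Prop :=
  ∀ (m : ℕ) (ν : Measure (Fin m → ℤ_[p])) [IsProbabilityMeasure ν] [ν.IsAddLeftInvariant]
    (E : Set (Fin m → ℤ_[p])), ν E ≠ 0 → (m : ℝ≥0∞) ≤ dimH E

/-- A set of full measure all of whose projections have empty interior. -/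
def StmtBad : Prop :=
  ∀ (l : ℕ), 1 ≤ l → ∀ (ν : Measure (Fin (l + 1) → ℤ_[p])) [IsProbabilityMeasure ν]
    [ν.IsAddLeftInvariant], ∃ E, MeasurableSet E ∧ ν Eᶜ = 0 ∧
      ∀ A : Fin l → Fin (l + 1) → ℤ_[p], interior (mv A '' E) = ∅

end Pool.Agent.Work.MP_2a522c_an.Pa
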