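import Pool.Agent.Work.MP_2a522c_an.Pa.Defs2

-- merged part: Lag
section
/-! One-variable interpolation with loss. -/

open Finset Polynomial

namespace Pool.Agent.Work.MP_2a522c_an.Pa

theorem lag_unit {R : Type} [CommRing R] (π : R) (e : ℕ) :
    ∀ D : R, ¬ π ^ (e + 1) ∣ D → ∃ u g, ¬ π ∣ g ∧ u * D = π ^ e * g := by
  induction e with
  | zero => exact fun D h => ⟨1, D, by simpa using h, by simp⟩
  | succ e ih =>
    intro D h
    by_cases hD : π ∣ D
    · obtain ⟨D', rfl⟩ := hD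
      obtain ⟨u, g, h1, h2⟩ := ih D' fun h' => h (by rw [pow_succ' π (e + 1)]; exact mul_dvd_mul_left π h')
      exact ⟨u, g, h1, by rw [mul_left_comm, h2, pow_succ', mul_assoc]⟩
    · exact ⟨π ^ (e + 1), D, hD, rfl⟩

theorem lag : StmtLag := by
  intro R _ _ π hπ d e m x q h1 h2 j
  classical
  choose u g hg hu using fun s => lag_unit π e _ (h1 s)
  have hinj : Set.InjOn x (univ : Finset (Fin d)) := fun s _ t _ hst => by
    by_contra hne
    refine h1 s ?_
    rw [prod_eq_zero (mem_erase.2 ⟨Ne.symm hne, mem_univ t⟩) (sub_eq_zero.2 hst)]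
    exact dvd_zero _
  have hG : ¬ π ∣ ∏ s, g s := fun h => by
    obtain ⟨s, _, hs⟩ := hπ.exists_mem_finset_dvd h
    exact hg s hs
  have key : ∑ i : Fin d, C (π ^ e * (∏ s, g s) * q i) * X ^ (i : ℕ) =
      ∑ s, C ((∑ i, q i * x s ^ (i : ℕ)) * (u s * ∏ t ∈ univ.erase s, g t)) *
        Lagrange.nodal (univ.erase s) x := by
    refine eq_of_degrees_lt_of_eval_index_eq univ hinj ?_ ?_ fun s _ => ?_
    · rw [card_univ, Fintype.card_fin]
      exact degree_sum_fin_lt _
    · refine (degree_sum_le _ _).trans_lt ((Finset.sup_lt_iff (WithBot.bot_lt_coe _)).2 fun s _ => ?_)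
      rw [← smul_eq_C_mul]
      refine (degree_smul_le _ _).trans_lt ?_
      rw [Lagrange.degree_nodal]
      exact_mod_cast card_erase_lt_of_mem (mem_univ s)
    · symm
      rw [eval_finsetSum, eval_finsetSum, sum_eq_single s]
      · simp only [eval_mul, eval_C, eval_pow, eval_X, Lagrange.eval_nodal]
        rw [← mul_prod_erase univ g (mem_univ s)]
        calc _ = (∑ i, q i * x s ^ (i : ℕ)) * ((π ^ e * g s) * ∏ t ∈ univ.erase s, g t) := by
              rw [← hu s]; ring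
          _ = _ := by
              rw [sum_mul]
              exact sum_congr rfl fun i _ => by ring
      · intro t _ hts
        rw [eval_mul, Lagrange.eval_nodal_at_node (mem_erase.2 ⟨Ne.symm hts, mem_univ s⟩), mul_zero]
      · exact fun h => (h (mem_univ s)).elim
  have hc := congrArg (fun P => coeff P j) key
  simp only [finsetSum_coeff, coeff_C_mul, coeff_X_pow] at hc
  rw [sum_eq_single j (fun i _ hi => by rw [if_neg fun h => hi (Fin.ext h).symm, mul_zero])
    (fun h => (h (mem_univ j)).elim), if_pos rfl, mul_one] at hc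
  have hd : π ^ e * π ^ m ∣ π ^ e * ((∏ s, g s) * q j) := by
    rw [← mul_assoc, hc, ← pow_add, add_comm]
    exact dvd_sum fun s _ => ((h2 s).mul_right _).mul_right _
  exact hπ.pow_dvd_of_dvd_mul_left m hG
    ((mul_dvd_mul_iff_left (pow_ne_zero e hπ.ne_zero)).1 hd)

end Pool.Agent.Work.MP_2a522c_an.Pa
end

-- merged part: Cover
section
/-! Covering a finite group by translates. -/

open Finset

namespace Pool.Agent.Work.MP_2a522c_an.Pa

theorem cover_step {G : Type} [AddCommGroup G] [Fintype G] [DecidableEq G] (Ω U : Finset G) :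
    ∃ v : G, #(U.filter fun g => g - v ∉ Ω) * Fintype.card G ≤ #U * #(Ωᶜ) := by
  have h1 : ∀ g : G, #(univ.filter fun v => g - v ∉ Ω) = #(Ωᶜ) := fun g =>
    Finset.card_equiv (Equiv.subLeft g) (by simp)
  have h2 : ∑ v : G, #(U.filter fun g => g - v ∉ Ω) = #U * #(Ωᶜ) := by
    simp only [card_filter]
    rw [sum_comm]
    simp only [← card_filter, h1, sum_const, smul_eq_mul]
  have h3 : ∑ v : G, #(U.filter fun g => g - v ∉ Ω) * Fintype.card G ≤
      ∑ _v : G, #U * #(Ωᶜ) := by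
    rw [← sum_mul, h2, sum_const, card_univ, smul_eq_mul, mul_comm]
  obtain ⟨v, -, hv⟩ := exists_le_of_sum_le univ_nonempty h3
  exact ⟨v, hv⟩

theorem cover_iter {G : Type} [AddCommGroup G] [Fintype G] [DecidableEq G] (Ω : Finset G)
    (t : ℕ) : ∃ T : Finset G, #T ≤ t ∧ (#(univ.filter fun g => ∀ v ∈ T, g - v ∉ Ω) : ℝ) ≤
      Fintype.card G * Real.exp (-((#Ω : ℝ) / Fintype.card G * t)) := by
  have hN : (0 : ℝ) < Fintype.card G := by exact_mod_cast Fintype.card_pos
  induction t with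
  | zero => exact ⟨∅, by simp, by simp⟩
  | succ t ih =>
    obtain ⟨T, hT, hU⟩ := ih
    obtain ⟨v, hv⟩ := cover_step Ω (univ.filter fun g => ∀ v ∈ T, g - v ∉ Ω)
    refine ⟨insert v T, (card_insert_le _ _).trans (by omega), ?_⟩
    have h1 : (univ.filter fun g => ∀ w ∈ insert v T, g - w ∉ Ω) =
        (univ.filter fun g => ∀ v ∈ T, g - v ∉ Ω).filter fun g => g - v ∉ Ω := by
      ext g
      simp only [mem_filter, mem_univ, true_and, forall_mem_insert]
      exact and_comm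
    have h2 : ((#(Ωᶜ) : ℕ) : ℝ) = Fintype.card G - #Ω := by
      rw [card_compl, Nat.cast_sub (card_le_univ Ω)]
    have h3 : ((#(Ωᶜ) : ℕ) : ℝ) ≤ Real.exp (-((#Ω : ℝ) / Fintype.card G)) * Fintype.card G := by
      have h4 := mul_le_mul_of_nonneg_right
        (Real.add_one_le_exp (-((#Ω : ℝ) / Fintype.card G))) hN.le
      have h5 : (-((#Ω : ℝ) / Fintype.card G) + 1) * Fintype.card G = Fintype.card G - #Ω := by
        field_simp
        ring
      linarith
    have hv' : (#((univ.filter fun g => ∀ v ∈ T, g - v ∉ Ω).filter fun g => g - v ∉ Ω) : ℝ) *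
        Fintype.card G ≤ #(univ.filter fun g => ∀ v ∈ T, g - v ∉ Ω) * ((#(Ωᶜ) : ℕ) : ℝ) := by
      exact_mod_cast hv
    rw [h1]
    refine le_of_mul_le_mul_right (hv'.trans ?_) hN
    refine (mul_le_mul hU h3 (Nat.cast_nonneg _) (by positivity)).trans (le_of_eq ?_)
    have h6 : -((#Ω : ℝ) / Fintype.card G * ((t + 1 : ℕ) : ℝ)) =
        -((#Ω : ℝ) / Fintype.card G * t) + -((#Ω : ℝ) / Fintype.card G) := by
      push_cast
      ring
    rw [h6, Real.exp_add]
    ring

theorem cover : StmtCover := by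
  intro G _ _ Ω hΩ
  classical
  have hN : (0 : ℝ) < Fintype.card G := by exact_mod_cast Fintype.card_pos
  have hN1 : (1 : ℝ) ≤ Fintype.card G := by exact_mod_cast Fintype.card_pos
  have hO : (0 : ℝ) < #Ω := by exact_mod_cast hΩ.card_pos
  have hON : (#Ω : ℝ) ≤ Fintype.card G := by exact_mod_cast card_le_univ Ω
  have hl := Real.log_nonneg hN1
  obtain ⟨x, hx⟩ : ∃ x : ℝ, x = Real.log (Fintype.card G) * Fintype.card G / #Ω := ⟨_, rfl⟩
  have hx0 : 0 ≤ x := by
    rw [hx]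
    positivity
  have hxO : x * #Ω = Real.log (Fintype.card G) * Fintype.card G := by
    rw [hx]
    field_simp
  obtain ⟨T, hT, hU⟩ := cover_iter Ω (⌊x⌋₊ + 1)
  have h1 : x < ((⌊x⌋₊ + 1 : ℕ) : ℝ) := by
    push_cast
    exact Nat.lt_floor_add_one x
  have h2 : ((⌊x⌋₊ + 1 : ℕ) : ℝ) ≤ x + 1 := by
    push_cast
    linarith [Nat.floor_le hx0]
  refine ⟨T, fun g => ?_, ?_⟩
  · have h3 : Real.exp (-((#Ω : ℝ) / Fintype.card G * ((⌊x⌋₊ + 1 : ℕ) : ℝ))) <
        Real.exp (-Real.log (Fintype.card G)) := by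
      refine Real.exp_lt_exp.2 (neg_lt_neg ?_)
      have h4 := mul_lt_mul_of_pos_left h1 (div_pos hO hN)
      have h5 : (#Ω : ℝ) / Fintype.card G * x = Real.log (Fintype.card G) := by
        rw [hx]
        field_simp
      linarith
    rw [Real.exp_neg (Real.log _), Real.exp_log hN] at h3
    have h6 := hU.trans_lt (mul_lt_mul_of_pos_left h3 hN)
    rw [mul_inv_cancel₀ hN.ne'] at h6
    have h7 : #(univ.filter fun g => ∀ v ∈ T, g - v ∉ Ω) = 0 := by
      have : #(univ.filter fun g => ∀ v ∈ T, g - v ∉ Ω) < 1 := by exact_mod_cast h6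
      omega
    by_contra hc
    have h8 : g ∈ univ.filter fun g => ∀ v ∈ T, g - v ∉ Ω :=
      mem_filter.2 ⟨mem_univ g, fun v hv hm => hc ⟨v, hv, hm⟩⟩
    rw [card_eq_zero.1 h7] at h8
    exact notMem_empty g h8
  · have h3 : (#T : ℝ) ≤ x + 1 := le_trans (by exact_mod_cast hT) h2
    have h4 := mul_le_mul_of_nonneg_right h3 hO.le
    linarith

end Pool.Agent.Work.MP_2a522c_an.Pa
end

-- merged part: Val
section
/-! The order of vanishing at one of the interpolation denominators. -/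

open Finset Polynomial

namespace Pool.Agent.Work.MP_2a522c_an.Pa

theorem val_prime (F : Type) [Field F] : Prime (X - 1 : F[X]) := by
  simpa using prime_X_sub_C (1 : F)

theorem val_one (p : ℕ) [Fact p.Prime] (F : Type) [Field F] [CharP F p] (u v : ℕ)
    (hu : ¬ p ∣ u) : emultiplicity (X - 1 : F[X]) (X ^ (p ^ v * u) - 1) ≤ ((p ^ v : ℕ) : ℕ∞) := by
  have h1 : (X ^ (p ^ v * u) - 1 : F[X]) = (X ^ u - 1) ^ p ^ v := by
    rw [sub_pow_char_pow, one_pow, ← pow_mul, mul_comm]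
  have h2 : emultiplicity (X - 1 : F[X]) (X ^ u - 1) ≤ 1 := by
    have hs : (X ^ u - 1 : F[X]).Separable :=
      X_pow_sub_one_separable_iff.2 fun h => hu ((CharP.cast_eq_zero_iff F p u).1 h)
    have h3 : ¬ (X - 1 : F[X]) ^ 2 ∣ X ^ u - 1 := fun h =>
      (val_prime F).not_isUnit (hs.squarefree _ (by rwa [← sq]))
    have h4 := emultiplicity_lt_iff_not_dvd.2 h3
    exact Order.le_of_lt_add_one (by exact_mod_cast h4)
  rw [h1, emultiplicity_pow (val_prime F)]
  calc _ ≤ ((p ^ v : ℕ) : ℕ∞) * 1 := by gcongr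
    _ = _ := mul_one _

theorem val_lt (p : ℕ) [Fact p.Prime] (F : Type) [Field F] [CharP F p] (k a b : ℕ) (hab : a < b)
    (hb : b < p ^ k) : emultiplicity (X - 1 : F[X]) (X ^ (1 + p * b) - X ^ (1 + p * a)) ≤
      ((∑ i ∈ range (k + 1), if a % p ^ i = b % p ^ i then p * p ^ i else 0 : ℕ) : ℕ∞) := by
  have hp : p.Prime := Fact.out
  obtain ⟨n, rfl⟩ := Nat.exists_eq_add_of_le hab.le
  have hn : n ≠ 0 := by omega
  obtain ⟨v, u, hu, rfl⟩ := Nat.exists_eq_pow_mul_and_not_dvd hn p hp.ne_one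
  have hu0 : 0 < u := Nat.pos_of_ne_zero fun h => hu (h ▸ dvd_zero p)
  have hv : v < k := by
    have h1 : p ^ v ≤ p ^ v * u := Nat.le_mul_of_pos_right _ hu0
    exact (Nat.pow_lt_pow_iff_right hp.one_lt).1 (by omega)
  have h1 : (X ^ (1 + p * (a + p ^ v * u)) - X ^ (1 + p * a) : F[X]) =
      X ^ (1 + p * a) * (X ^ (p ^ (v + 1) * u) - 1) := by
    rw [mul_sub, mul_one, ← pow_add]
    congr 2
    ring
  have h2 : emultiplicity (X - 1 : F[X]) (X ^ (1 + p * a)) = 0 := by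
    refine emultiplicity_eq_zero.2 fun h => ?_
    have := eval_dvd (x := (1 : F)) h
    simp at this
  rw [h1, emultiplicity_mul (val_prime F), h2, zero_add]
  refine (val_one p F u (v + 1) hu).trans (Nat.cast_le.2 ?_)
  refine le_trans (le_of_eq ?_) (Finset.single_le_sum
    (f := fun i => if a % p ^ i = (a + p ^ v * u) % p ^ i then p * p ^ i else 0)
    (fun i _ => Nat.zero_le _) (mem_range.2 (show v < k + 1 by omega)))
  simp only [Nat.add_mul_mod_self_left, if_true]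
  ring

theorem val_ne (p : ℕ) [Fact p.Prime] (F : Type) [Field F] [CharP F p] (k a b : ℕ) (hab : a ≠ b)
    (ha : a < p ^ k) (hb : b < p ^ k) :
    emultiplicity (X - 1 : F[X]) (X ^ (1 + p * a) - X ^ (1 + p * b)) ≤
      ((∑ i ∈ range (k + 1), if a % p ^ i = b % p ^ i then p * p ^ i else 0 : ℕ) : ℕ∞) := by
  rcases lt_or_gt_of_ne hab with h | h
  · rw [← neg_sub (X ^ (1 + p * b) : F[X]), emultiplicity_neg]
    exact val_lt p F k a b h hb
  · simpa only [eq_comm] using val_lt p F k b a h ha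

theorem val_count (d q : ℕ) (s : Fin d) :
    #((univ.erase s).filter fun t : Fin d => (s : ℕ) % q = (t : ℕ) % q) * q ≤ d := by
  have h1 : #((univ.erase s).filter fun t : Fin d => (s : ℕ) % q = (t : ℕ) % q) ≤
      #((range (d / q + 1)).erase ((s : ℕ) / q)) := by
    refine card_le_card_of_injOn (fun t : Fin d => (t : ℕ) / q) (fun t ht => ?_)
      (fun t ht t' ht' e => ?_)
    · simp only [coe_filter, mem_erase, mem_univ, and_true, Set.mem_ofPred_eq] at ht
      simp only [coe_erase, coe_range, Set.mem_sdiff, Set.mem_Iio, Set.mem_singleton_iff]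
      refine ⟨Nat.lt_succ_of_le (Nat.div_le_div_right t.2.le), fun e => ht.1 (Fin.ext ?_)⟩
      rw [← Nat.div_add_mod t q, ← Nat.div_add_mod s q, e, ht.2]
    · simp only [coe_filter, mem_erase, mem_univ, and_true, Set.mem_ofPred_eq] at ht ht'
      refine Fin.ext ?_
      have e' : (t : ℕ) / q = (t' : ℕ) / q := e
      rw [← Nat.div_add_mod t q, ← Nat.div_add_mod t' q, e', ← ht.2, ← ht'.2]
  rw [card_erase_of_mem (mem_range.2 (Nat.lt_succ_of_le (Nat.div_le_div_right s.2.le))),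
    card_range, Nat.succ_sub_one] at h1
  exact (Nat.mul_le_mul_right q h1).trans (Nat.div_mul_le_self d q)

theorem val (p : ℕ) [Fact p.Prime] : StmtVal p := by
  intro F _ _ d k hd s
  refine emultiplicity_lt_iff_not_dvd.1 ?_
  rw [Finset.emultiplicity_prod (val_prime F)]
  have h1 : ∑ t ∈ univ.erase s, ∑ i ∈ range (k + 1),
      (if (s : ℕ) % p ^ i = (t : ℕ) % p ^ i then p * p ^ i else 0) ≤ p * d * (k + 1) := by
    rw [Finset.sum_comm]
    calc _ ≤ ∑ _i ∈ range (k + 1), p * d := Finset.sum_le_sum fun i _ => by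
          rw [← Finset.sum_filter, Finset.sum_const, smul_eq_mul, mul_left_comm]
          exact Nat.mul_le_mul_left p (val_count d (p ^ i) s)
      _ = p * d * (k + 1) := by rw [Finset.sum_const, card_range, smul_eq_mul, mul_comm]
  calc _ ≤ ∑ t ∈ univ.erase s, ((∑ i ∈ range (k + 1),
        if (s : ℕ) % p ^ i = (t : ℕ) % p ^ i then p * p ^ i else 0 : ℕ) : ℕ∞) :=
        Finset.sum_le_sum fun t ht => val_ne p F k s t
          (fun e => (mem_erase.1 ht).1 (Fin.ext e.symm)) (s.2.trans_le hd) (t.2.trans_le hd)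
    _ ≤ ((p * d * (k + 1) : ℕ) : ℕ∞) := by
        rw [← Nat.cast_sum]
        exact Nat.cast_le.2 h1
    _ < _ := Nat.cast_lt.2 (Nat.lt_succ_self _)

end Pool.Agent.Work.MP_2a522c_an.Pa
end

-- merged part: Vand
section
/-! Interpolation on a grid of powers of the variable. -/

open Finset Polynomial

namespace Pool.Agent.Work.MP_2a522c_an.Pa

theorem vand_grid (h1 : StmtLag) {R : Type} [CommRing R] [IsDomain R] {π : R} (hπ : Prime π)
    {d e : ℕ} {x : Fin d → R} (hx : ∀ s, ¬ π ^ (e + 1) ∣ ∏ t ∈ univ.erase s, (x s - x t))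
    (M m : ℕ) : ∀ q : (Fin m → Fin d) → R,
      (∀ u : Fin m → Fin d, π ^ (M + m * e) ∣ ∑ j, q j * ∏ i, x (u i) ^ (j i : ℕ)) →
      ∀ j, π ^ M ∣ q j := by
  induction m with
  | zero =>
    intro q h j
    have := h j
    rw [Fintype.sum_subsingleton _ j] at this
    simpa using this
  | succ m ih =>
    intro q h j
    rw [← Fin.cons_self_tail j]
    refine ih (fun j' => q (Fin.cons (j 0) j')) (fun u => ?_) (Fin.tail j)
    refine h1 R π hπ d e (M + m * e) x
      (fun a => ∑ j' : Fin m → Fin d, q (Fin.cons a j') * ∏ i, x (u i) ^ (j' i : ℕ)) hx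
      (fun s => ?_) (j 0)
    have := h (Fin.cons s u)
    rw [← (Fin.consEquiv fun _ : Fin (m + 1) => Fin d).sum_comp, Fintype.sum_prod_type] at this
    rw [add_assoc, ← add_one_mul]
    refine (dvd_iff_dvd_of_dvd_sub (Dvd.intro 0 ?_)).1 this
    rw [mul_zero, eq_comm, sub_eq_zero]
    refine sum_congr rfl fun a _ => ?_
    rw [sum_mul]
    refine sum_congr rfl fun j' _ => ?_
    change q (Fin.cons a j') * _ = _
    simp only [Fin.consEquiv_apply, Fin.prod_univ_succ, Fin.cons_zero, Fin.cons_succ]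
    ring

theorem vand_mod {F : Type} [Field F] (N a : ℕ) :
    (X ^ N - 1 : F[X]) ∣ X ^ a - X ^ (a % N) := by
  have e : (X ^ a - X ^ (a % N) : F[X]) = ((X ^ N) ^ (a / N) - 1) * X ^ (a % N) := by
    rw [sub_mul, one_mul, ← pow_mul, ← pow_add, Nat.div_add_mod]
  rw [e]
  exact (sub_one_dvd_pow_sub_one _ _).mul_right _

theorem vand (p : ℕ) [Fact p.Prime] (h1 : StmtLag) (h2 : StmtVal p) : StmtVand p := by
  intro l k r d F _ _ c hr hlt hrel
  have hp : p.Prime := Fact.out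
  have : NeZero (p ^ k) := ⟨pow_ne_zero _ hp.ne_zero⟩
  have hd : d ≤ p ^ k := by
    have a1 : d ≤ p * d * (k + 1) :=
      (Nat.le_mul_of_pos_left d hp.pos).trans (Nat.le_mul_of_pos_right _ k.succ_pos)
    have a2 := Nat.le_mul_of_pos_left (p * d * (k + 1)) l.succ_pos
    rw [Nat.succ_eq_add_one] at a2
    omega
  have cong : ∀ a b : ℕ, (a : ZMod (p ^ k)) = b → (X - 1 : F[X]) ^ r ∣ X ^ a - X ^ b := by
    intro a b hab
    refine (pow_dvd_pow _ hr).trans ?_
    rw [sub_pow_char_pow, one_pow]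
    have := (vand_mod (F := F) (p ^ k) a).sub (vand_mod (p ^ k) b)
    rwa [show a % p ^ k = b % p ^ k from (ZMod.natCast_eq_natCast_iff' _ _ _).1 hab,
      sub_sub_sub_cancel_right] at this
  have step : ∀ u : Option (Fin l) → Fin d, (X - 1 : F[X]) ^ r ∣
      ∑ j : Option (Fin l) → Fin d, C (c j) * ∏ i, (X ^ (1 + p * (u i : ℕ))) ^ (j i : ℕ) := by
    intro u
    have hc : Nat.Coprime (1 + p * (u none : ℕ)) (p ^ k) := Nat.Coprime.pow_right _ (by simp)
    have hi := ZMod.coe_mul_inv_eq_one _ hc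
    have a1 := map_dvd (expand F (1 + p * (u none : ℕ))) (hrel fun i =>
      ((1 + p * (u (some i) : ℕ) : ℕ) : ZMod (p ^ k)) * ((1 + p * (u none : ℕ) : ℕ) : ZMod (p ^ k))⁻¹)
    simp only [map_pow, map_sub, map_one, map_sum, map_mul, expand_X, expand_C] at a1
    have a2 := (pow_dvd_pow_of_dvd (sub_one_dvd_pow_sub_one (X : F[X]) (1 + p * (u none : ℕ)))
      r).trans a1
    refine (dvd_iff_dvd_of_dvd_sub ?_).1 a2
    rw [← sum_sub_distrib]
    refine dvd_sum fun j _ => ?_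
    rw [← mul_sub]
    refine Dvd.dvd.mul_left ?_ _
    simp only [← pow_mul]
    rw [prod_pow_eq_pow_sum]
    refine cong _ _ ?_
    rw [Fintype.sum_option, Nat.cast_mul, Nat.cast_add (j none : ℕ), mul_add,
      Nat.cast_add (_ * _), Nat.cast_mul, Nat.cast_sum, Nat.cast_sum, mul_sum]
    congr 1
    refine sum_congr rfl fun i _ => ?_
    rw [Nat.cast_mul, Nat.cast_mul (1 + p * (u (some i) : ℕ)), ZMod.natCast_zmod_val]
    linear_combination (((1 + p * (u (some i) : ℕ) : ℕ) : ZMod (p ^ k)) * (j (some i) : ℕ)) * hi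
  have hπ : Prime (X - 1 : F[X]) := by simpa using prime_X_sub_C (1 : F)
  let e := finSuccEquiv l
  have key := vand_grid h1 hπ (h2 F d k hd) 1 (l + 1) (fun j => C (c (j ∘ e.symm))) fun u => by
    refine (pow_dvd_pow _ (by omega)).trans ((step (u ∘ e.symm)).trans (dvd_of_eq ?_))
    refine (Fintype.sum_equiv (e.arrowCongr (Equiv.refl _)) _ _ fun j => ?_).symm
    congr 1
    exact (e.symm.prod_comp fun i => ((X : F[X]) ^ (1 + p * (u i : ℕ))) ^ (j i : ℕ)).symm
  funext j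
  have := key (j ∘ e)
  rw [pow_one, Function.comp_assoc, e.self_comp_symm, Function.comp_id, ← C_1, dvd_iff_isRoot]
    at this
  simpa using this

end Pool.Agent.Work.MP_2a522c_an.Pa
end

-- merged part: Red
section
/-! A small set with a rich line in every direction gives a relation in characteristic `p`. -/

open Finset Polynomial

namespace Pool.Agent.Work.MP_2a522c_an.Pa

theorem red_val (p : ℕ) (hp : p.Prime) : ∃ B : ValuationSubring ℂ, (p : ℂ) ∈ B.nonunits := by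
  have h : Ideal.span {(p : (⊥ : Subring ℂ))} ≠ ⊤ := by
    rw [Ne, Ideal.span_singleton_eq_top, isUnit_iff_exists_inv]
    rintro ⟨b, hb⟩
    obtain ⟨n, hn⟩ := Subring.mem_bot.1 b.2
    have h1 : (p : ℂ) * n = 1 := by
      rw [hn]
      simpa using congrArg Subtype.val hb
    have h2 : (p : ℤ) * n = 1 := by exact_mod_cast h1
    have h3 : (p : ℤ) ∣ 1 := ⟨n, h2.symm⟩
    exact hp.one_lt.ne' (Nat.dvd_one.1 (by exact_mod_cast h3))
  obtain ⟨B, -, hB⟩ := Ideal.image_subset_nonunits_valuationSubring _ h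
  exact ⟨B, hB ⟨_, Ideal.mem_span_singleton_self _, by simp⟩⟩

theorem red_core {B F J : Type} [CommRing B] [IsDomain B] [Field F] [Fintype J] {N : ℕ} [NeZero N]
    (φ : B →+* F) {ζ : B} (hζ : IsPrimitiveRoot ζ N) (hφ : φ ζ = 1) (c : J → B) (α e : J → ℕ)
    (T : Finset (ZMod N)) (h : ∀ t ∈ T, ∑ j, c j * ζ ^ α j * (ζ ^ t.val) ^ e j = 0) :
    (X - 1 : F[X]) ^ #T ∣ ∑ j, C (φ (c j)) * X ^ e j := by
  have h1 : (((T.val.map fun t => ζ ^ t.val)).map fun a => X - C a).prod ∣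
      ∑ j, C (c j * ζ ^ α j) * X ^ e j := by
    by_cases h0 : ∑ j, C (c j * ζ ^ α j) * (X : B[X]) ^ e j = 0
    · rw [h0]
      exact dvd_zero _
    rw [Multiset.prod_X_sub_C_dvd_iff_le_roots h0, Multiset.le_iff_subset]
    · intro a ha
      obtain ⟨t, ht, rfl⟩ := Multiset.mem_map.1 ha
      rw [mem_roots h0, IsRoot.def, eval_finsetSum]
      simp only [eval_mul, eval_C, eval_pow, eval_X]
      exact h t ht
    · exact T.nodup.map_on fun x _ y _ e =>
        ZMod.val_injective N (hζ.pow_inj (ZMod.val_lt x) (ZMod.val_lt y) e)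
  have h2 := Polynomial.map_dvd φ h1
  rw [Polynomial.map_multiset_prod, Multiset.map_map, Multiset.map_map, Polynomial.map_sum] at h2
  simp only [Function.comp_def, Polynomial.map_sub, Polynomial.map_mul, Polynomial.map_pow, map_X,
    map_C, map_pow, map_mul, hφ, one_pow, mul_one, map_one, Multiset.map_const',
    Multiset.prod_replicate] at h2
  exact h2

theorem red_pow {M : Type} [Monoid M] {N : ℕ} {ζ : M} (h : ζ ^ N = 1) {m m' : ℕ}
    (e : (m : ZMod N) = (m' : ZMod N)) : ζ ^ m = ζ ^ m' := by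
  rw [pow_eq_pow_mod m h, pow_eq_pow_mod m' h, (ZMod.natCast_eq_natCast_iff' _ _ _).1 e]

theorem red' (p : ℕ) [Fact p.Prime] : StmtRed p := by
  intro l k r d S hS hc
  classical
  have hp : p.Prime := Fact.out
  have hN : p ^ k ≠ 0 := pow_ne_zero _ hp.ne_zero
  have : NeZero (p ^ k) := ⟨hN⟩
  obtain ⟨z, hz⟩ : ∃ z : ℂ, IsPrimitiveRoot z (p ^ k) := ⟨_, Complex.isPrimitiveRoot_exp _ hN⟩
  let A : Matrix S (Option (Fin l) → Fin d) ℂ :=
    Matrix.of fun x j => z ^ ∑ i, (x.1 i).val * (j i : ℕ)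
  obtain ⟨c0, hc0, hne⟩ := Submodule.exists_mem_ne_zero_of_ne_bot
    (LinearMap.ker_ne_bot_of_finrank_lt (f := A.mulVecLin) (by simpa using hc))
  have hA : ∀ x ∈ S, ∑ j, z ^ (∑ i, (x i).val * (j i : ℕ)) * c0 j = 0 := fun x hx =>
    congrFun (LinearMap.mem_ker.1 hc0) ⟨x, hx⟩
  obtain ⟨B, hB⟩ := red_val p hp
  have hzB : z ∈ B := by
    rcases B.mem_or_inv_mem z with h | h
    · exact h
    · have e : z = z⁻¹ ^ (p ^ k - 1) := by
        rw [inv_pow]
        refine eq_inv_of_mul_eq_one_right ?_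
        rw [← pow_succ, Nat.sub_add_cancel (Nat.pos_of_ne_zero hN), hz.pow_eq_one]
      rw [e]
      exact pow_mem h _
  obtain ⟨j1, hj1⟩ := Function.ne_iff.1 hne
  obtain ⟨j0, -, hj0⟩ := exists_max_image univ (fun j => B.valuation (c0 j)) ⟨j1, mem_univ _⟩
  have h0 : c0 j0 ≠ 0 := fun h => hj1 (by
    have := hj0 j1 (mem_univ _)
    rw [h, map_zero, le_zero_iff] at this
    exact (map_eq_zero _).1 this)
  have hm : ∀ j, c0 j / c0 j0 ∈ B := fun j => by
    rw [← B.valuation_le_one_iff, map_div₀]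
    exact div_le_one_of_le₀ (hj0 j (mem_univ _)) zero_le
  let φ := IsLocalRing.residue B
  have hF : CharP (IsLocalRing.ResidueField B) p := (CharP.charP_iff_prime_eq_zero hp).2 (by
    rw [← map_natCast φ, IsLocalRing.residue_eq_zero_iff, ← B.coe_mem_nonunits_iff]
    simpa using hB)
  have hζ : IsPrimitiveRoot (⟨z, hzB⟩ : B) (p ^ k) :=
    IsPrimitiveRoot.of_map_of_injective (f := B.subtype) hz Subtype.val_injective
  have hφ : φ ⟨z, hzB⟩ = 1 := by
    have h1 : (φ ⟨z, hzB⟩ - 1) ^ p ^ k = 0 := by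
      rw [sub_pow_char_pow, ← map_pow, hζ.pow_eq_one, map_one, one_pow, sub_self]
    exact sub_eq_zero.1 (pow_eq_zero_iff hN |>.1 h1)
  refine ⟨_, inferInstance, hF, fun j => φ ⟨_, hm j⟩, Function.ne_iff.2 ⟨j0, ?_⟩, fun w => ?_⟩
  · have : (⟨_, hm j0⟩ : B) = 1 := Subtype.ext (div_self h0)
    rw [this, map_one]
    exact one_ne_zero
  obtain ⟨a, ha⟩ := hS w
  refine (pow_dvd_pow _ ha).trans (red_core φ hζ hφ (fun j => ⟨_, hm j⟩)
    (fun j => ∑ i, (a i).val * (j (some i) : ℕ)) _ _ fun t ht => ?_)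
  apply Subtype.val_injective
  have h1 := hA _ (mem_filter.1 ht).2
  have h2 : ∀ j : Option (Fin l) → Fin d, z ^ (∑ i, (pt w a t i).val * (j i : ℕ)) =
      z ^ (∑ i, (a i).val * (j (some i) : ℕ)) *
        (z ^ t.val) ^ ((j none : ℕ) + ∑ i, (w i).val * (j (some i) : ℕ)) := fun j => by
    rw [← pow_mul, ← pow_add]
    refine red_pow hz.pow_eq_one ?_
    simp only [Fintype.sum_option, pt, Option.elim, Nat.cast_add, Nat.cast_sum, Nat.cast_mul,
      ZMod.natCast_val, ZMod.cast_id', id, mul_add, add_mul, sum_add_distrib, mul_sum, mul_assoc]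
    ring
  simp only [h2] at h1
  have h3 : ∑ j, c0 j / c0 j0 * z ^ (∑ i, (a i).val * (j (some i) : ℕ)) *
      (z ^ t.val) ^ ((j none : ℕ) + ∑ i, (w i).val * (j (some i) : ℕ)) = 0 := by
    rw [← zero_div (c0 j0), ← h1, sum_div]
    exact sum_congr rfl fun j _ => by ring
  refine (map_sum B.subtype _ _).trans (Eq.trans (sum_congr rfl fun j _ => ?_) h3)
  rw [map_mul, map_mul, map_pow, map_pow, map_pow]
  rfl

end Pool.Agent.Work.MP_2a522c_an.Pa
end

-- merged part: Kak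
section
/-! The Kakeya estimate modulo a prime power, from the relation and its triviality. -/

open Finset

namespace Pool.Agent.Work.MP_2a522c_an.Pa

/-- The shear that adds `v` to the direction. -/
def kak_sh {l : ℕ} {R : Type} [CommRing R] (v : Fin l → R) (y : Option (Fin l) → R) :
    Option (Fin l) → R := fun i => i.elim (y none) fun i => y (some i) + y none * v i

theorem kak_sh_pt {l : ℕ} {R : Type} [CommRing R] (v w a : Fin l → R) (t : R) :
    kak_sh v (pt (w - v) a t) = pt w a t := by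
  funext i
  cases i
  · rfl
  · simp only [kak_sh, pt, Option.elim, Pi.sub_apply]
    ring

theorem kak (p : ℕ) [Fact p.Prime] (h1 : StmtCover) (h2 : StmtRed p) (h3 : StmtVand p) :
    StmtKak p := by
  classical
  intro l
  refine ⟨(2 * (l + 1) * p) ^ (l + 1) * (l * p + 1), fun k r S Ω hr h => ?_⟩
  have hp : 0 < p := (Fact.out : p.Prime).pos
  rcases Ω.eq_empty_or_nonempty with rfl | hΩ
  · rw [card_empty, Nat.cast_zero, zero_mul]
    positivity
  obtain ⟨T, hT, hT'⟩ := h1 _ Ω hΩ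
  obtain ⟨w0, hw0⟩ := hΩ
  obtain ⟨a0, ha0⟩ := h w0 hw0
  have r1 : r ≤ p ^ k := ha0.trans ((card_le_univ _).trans (ZMod.card _).le)
  have s1 : 1 ≤ #S := by
    obtain ⟨t, ht⟩ := card_pos.1 (hr.trans ha0)
    exact card_pos.2 ⟨_, (mem_filter.1 ht).2⟩
  have t1 : 1 ≤ #T := card_pos.2 ⟨_, (hT 0).choose_spec.1⟩
  obtain ⟨L, hL⟩ : ∃ L, L = (l + 1) * (p * (k + 1)) := ⟨_, rfl⟩
  have L0 : 0 < L := by rw [hL]; positivity
  have d1 := Nat.mul_div_le (r - 1) L
  have d2 := Nat.lt_mul_div_succ (r - 1) L0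
  generalize (r - 1) / L = d at d1 d2
  have k1 : d ^ (l + 1) ≤ #(T.biUnion fun v => S.image (kak_sh v)) := by
    by_contra hn
    obtain ⟨F, _, _, c, c0, hc⟩ := h2 l k r d _ (fun w => by
      obtain ⟨v, hv, hv'⟩ := hT w
      obtain ⟨a, ha⟩ := h _ hv'
      refine ⟨a, ha.trans (card_le_card fun t ht => mem_filter.2 ⟨mem_univ _, ?_⟩)⟩
      exact mem_biUnion.2 ⟨v, hv, mem_image.2 ⟨_, (mem_filter.1 ht).2, kak_sh_pt v w a t⟩⟩)
      (not_le.1 hn)
    refine c0 (h3 l k r d F c r1 ?_ hc)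
    calc (l + 1) * (p * d * (k + 1)) = L * d := by rw [hL]; ring
      _ < r := by omega
  have k2 : d ^ (l + 1) ≤ #T * #S :=
    k1.trans (card_biUnion_le_card_mul _ _ _ fun v _ => card_image_le)
  have k3 : r ^ (l + 1) ≤ (2 * L) ^ (l + 1) * (#T * #S) := by
    rcases Nat.eq_zero_or_pos d with rfl | d0
    · exact (Nat.pow_le_pow_left (by omega) _).trans (Nat.le_mul_of_pos_right _ (Nat.mul_pos t1 s1))
    · have : r ≤ 2 * L * d := by nlinarith [Nat.sub_add_cancel hr]
      calc _ ≤ (2 * L * d) ^ (l + 1) := Nat.pow_le_pow_left this _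
        _ ≤ _ := by rw [mul_pow]; exact Nat.mul_le_mul_left _ k2
  have k4 : (r : ℝ) ^ (l + 1) ≤ (2 * ((l + 1) * (p * (k + 1)))) ^ (l + 1) * (#T * #S) := by
    rw [hL] at k3
    exact_mod_cast k3
  have c1 : (Fintype.card (Fin l → ZMod (p ^ k)) : ℝ) = ((p : ℝ) ^ k) ^ l := by
    rw [Fintype.card_fun, ZMod.card, Fintype.card_fin]
    push_cast
    rfl
  have c2 : Real.log (((p : ℝ) ^ k) ^ l) + 1 ≤ (l * p + 1) * (k + 1) := by
    rw [Real.log_pow, Real.log_pow]
    have e1 : Real.log p ≤ p := Real.log_le_self (Nat.cast_nonneg p)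
    have e2 : (l : ℝ) * (k * Real.log p) ≤ l * (k * p) := by gcongr
    have e3 : (0 : ℝ) ≤ l * p + k := by positivity
    nlinarith
  rw [c1] at hT'
  calc (#Ω : ℝ) * (r : ℝ) ^ (l + 1)
      ≤ #Ω * ((2 * ((l + 1) * (p * (k + 1)))) ^ (l + 1) * (#T * #S)) := by gcongr
    _ = (2 * ((l + 1) * (p * (k + 1)))) ^ (l + 1) * (#T * #Ω) * #S := by ring
    _ ≤ (2 * ((l + 1) * (p * (k + 1)))) ^ (l + 1) *
        (((p : ℝ) ^ k) ^ l * ((l * p + 1) * (k + 1))) * #S := by
      gcongr _ * ?_ * _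
      exact hT'.trans (mul_le_mul_of_nonneg_left c2 (by positivity))
    _ = _ := by
      rw [show (2 * ((l + 1) * (p * (k + 1))) : ℝ) = 2 * (l + 1) * p * (k + 1) by ring,
        mul_pow _ ((k : ℝ) + 1), pow_succ ((k : ℝ) + 1) (l + 1)]
      generalize ((k : ℝ) + 1) ^ (l + 1) = x
      generalize (2 * ((l : ℝ) + 1) * p) ^ (l + 1) = y
      generalize ((p : ℝ) ^ k) ^ l = z
      ring

end Pool.Agent.Work.MP_2a522c_an.Pa
end

-- merged part: Phi
section
/-! The offset function of a null Besicovitch set over the `p`-adic integers. -/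

namespace Pool.Agent.Work.MP_2a522c_an.Pa

variable (p : ℕ) [Fact p.Prime]

/-- The natural number representing `w` modulo `p ^ k`. -/
noncomputable def phi_A (k : ℕ) (w : ℤ_[p]) : ℤ_[p] := ((PadicInt.toZModPow k w).val : ℕ)

theorem phi_red (k : ℕ) (w : ℤ_[p]) :
    PadicInt.toZModPow k (phi_A p k w) = PadicInt.toZModPow k w := by
  haveI : NeZero (p ^ k) := ⟨pow_ne_zero _ (Fact.out : p.Prime).ne_zero⟩
  rw [phi_A, map_natCast, ZMod.natCast_zmod_val]

theorem phi_pow {k k' : ℕ} (h : k ≤ k') : (p : ℝ) ^ (-(k' : ℤ)) ≤ (p : ℝ) ^ (-(k : ℤ)) :=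
  zpow_le_zpow_right₀ (by exact_mod_cast (Fact.out : p.Prime).one_lt.le) (by omega)

theorem phi_mono {k k' : ℕ} (h : k ≤ k') {x y : ℤ_[p]}
    (e : PadicInt.toZModPow k' x = PadicInt.toZModPow k' y) :
    PadicInt.toZModPow k x = PadicInt.toZModPow k y :=
  (toZ_eq_iff p k _ _).2 (((toZ_eq_iff p k' _ _).1 e).trans (phi_pow p h))

theorem phi_cont (k : ℕ) : Continuous (phi_A p k) :=
  ((IsLocallyConstant.iff_isOpen_fiber.2 fun c => (isClopen_toZ p k c).isOpen).comp
    fun c : ZMod (p ^ k) => ((c.val : ℕ) : ℤ_[p])).continuous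

theorem phi_del (k : ℕ) (w : ℤ_[p]) :
    ‖phi_A p (k + 1) w - phi_A p k w‖ ≤ (p : ℝ) ^ (-(k : ℤ)) :=
  (toZ_eq_iff p k _ _).1
    ((phi_mono p (Nat.le_succ k) (phi_red p (k + 1) w)).trans (phi_red p k w).symm)

theorem phi_zero {k : ℕ} {x : ℤ_[p]} (h : ‖x‖ ≤ (p : ℝ) ^ (-(k : ℤ))) :
    PadicInt.toZModPow k x = 0 := by
  rw [← map_zero (PadicInt.toZModPow (p := p) k), toZ_eq_iff, sub_zero]
  exact h

/-- The terms of the series. -/
noncomputable def phi_T (k : ℕ) (w : ℤ_[p]) : ℤ_[p] :=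
  ((Nat.unpair (Nat.sqrt k)).1 : ℤ_[p]) * (phi_A p (k + 1) w - phi_A p k w)

theorem phi_T_le (k : ℕ) (w : ℤ_[p]) : ‖phi_T p k w‖ ≤ (p : ℝ) ^ (-(k : ℤ)) := by
  rw [phi_T, norm_mul]
  exact (mul_le_of_le_one_left (norm_nonneg _) (PadicInt.norm_le_one _)).trans (phi_del p k w)

theorem phi_sum : Summable fun k : ℕ => (p : ℝ) ^ (-(k : ℤ)) := by
  have hp : (1 : ℝ) < p := by exact_mod_cast (Fact.out : p.Prime).one_lt
  refine (summable_geometric_of_lt_one (r := (p : ℝ)⁻¹) (by positivity)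
    (inv_lt_one_of_one_lt₀ hp)).congr fun k => ?_
  rw [zpow_neg, zpow_natCast, inv_pow]

theorem phi_split (N : ℕ) (t w : ℤ_[p]) :
    PadicInt.toZModPow N (-(∑' k, phi_T p k w) + t * w) =
      ∑ k ∈ Finset.range N, PadicInt.toZModPow N
        ((t - ((Nat.unpair (Nat.sqrt k)).1 : ℤ_[p])) * (phi_A p (k + 1) w - phi_A p k w)) +
      PadicInt.toZModPow N (t * phi_A p 0 w) := by
  have hp : (0 : ℝ) < p := by exact_mod_cast (Fact.out : p.Prime).pos
  have hs : Summable fun k => phi_T p k w := .of_norm_bounded (phi_sum p) fun k => phi_T_le p k w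
  have h1 : PadicInt.toZModPow N (∑' k, phi_T p (k + N) w) = 0 :=
    phi_zero p (IsUltrametricDist.norm_tsum_le_of_forall_le_of_nonneg (by positivity)
      fun k => (phi_T_le p _ w).trans (phi_pow p (Nat.le_add_left N k)))
  have h2 : ∑ k ∈ Finset.range N,
      (t - ((Nat.unpair (Nat.sqrt k)).1 : ℤ_[p])) * (phi_A p (k + 1) w - phi_A p k w) +
      t * phi_A p 0 w = -(∑ k ∈ Finset.range N, phi_T p k w) + t * phi_A p N w := by
    have := Finset.sum_range_sub (fun k => phi_A p k w) N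
    simp only [sub_mul _ _ (phi_A p _ w - _), Finset.sum_sub_distrib, ← Finset.mul_sum, phi_T]
    rw [← Finset.sum_sub_distrib, this]
    ring
  rw [← map_sum, ← map_add, h2, ← hs.sum_add_tsum_nat_add N]
  simp only [map_add, map_neg, map_mul, h1, phi_red, add_zero]

theorem phi (p : ℕ) [Fact p.Prime] : StmtPhi p := by
  have hp : (0 : ℝ) < p := by exact_mod_cast (Fact.out : p.Prime).pos
  refine ⟨fun w => -(∑' k, phi_T p k w), (continuous_tsum (fun k => ?_) (phi_sum p)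
    fun k w => phi_T_le p k w).neg, fun a j => ⟨Nat.pair a j * Nat.pair a j, ?_⟩⟩
  · exact continuous_const.mul ((phi_cont p (k + 1)).sub (phi_cont p k))
  intro t w w' ht hw
  have eA : ∀ k ≤ Nat.pair a j * Nat.pair a j, phi_A p k w = phi_A p k w' := fun k hk => by
    rw [phi_A, phi_A, phi_mono p hk hw]
  rw [phi_split, phi_split, eA 0 (Nat.zero_le _)]
  congr 1
  refine Finset.sum_congr rfl fun k hk => ?_
  by_cases h : k < Nat.pair a j * Nat.pair a j
  · rw [eA k h.le, eA (k + 1) h]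
  have hj := Nat.right_le_pair a j
  have hk' := Finset.mem_range.1 hk
  have hs : Nat.sqrt k = Nat.pair a j :=
    (Nat.eq_sqrt.2 ⟨not_lt.1 h, by nlinarith⟩).symm
  have ha : ‖t - (a : ℤ_[p])‖ ≤ (p : ℝ) ^ (-(j : ℤ)) :=
    (toZ_eq_iff p j _ _).1 (by rw [ht, map_natCast])
  have key : ∀ v : ℤ_[p], PadicInt.toZModPow (Nat.pair a j * Nat.pair a j + j)
      ((t - (a : ℤ_[p])) * (phi_A p (k + 1) v - phi_A p k v)) = 0 := fun v => by
    refine phi_zero p ?_
    rw [norm_mul]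
    refine (mul_le_mul ha ((phi_del p k v).trans (phi_pow p (not_lt.1 h))) (norm_nonneg _)
      (by positivity)).trans (le_of_eq ?_)
    rw [← zpow_add₀ hp.ne']
    congr 1
    push_cast
    ring
  rw [hs, Nat.unpair_pair, key, key]

end Pool.Agent.Work.MP_2a522c_an.Pa
end

-- merged part: Ker
section
/-! The kernel of a matrix with open range is a line. -/

namespace Pool.Agent.Work.MP_2a522c_an.Pa

theorem ker_coe (p : ℕ) [Fact p.Prime] {l n : ℕ} (A : Fin l → Fin n → ℤ_[p])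
    (z : Fin n → ℤ_[p]) :
    Matrix.mulVecLin (Matrix.of fun i j => (A i j : ℚ_[p])) (fun j => (z j : ℚ_[p])) =
      fun i => ((mv A z i : ℤ_[p]) : ℚ_[p]) := by
  funext i
  have h := map_sum (PadicInt.Coe.ringHom (p := p)) (fun j => A i j * z j) Finset.univ
  simp only [map_mul] at h
  exact h.symm

theorem ker' (p : ℕ) [Fact p.Prime] : StmtKer p := by
  rintro l A ⟨y, hy⟩
  have hL := ker_coe p A
  generalize Matrix.mulVecLin (Matrix.of fun i j => (A i j : ℚ_[p])) = L at hL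
  rw [mem_interior_iff_mem_nhds, Metric.mem_nhds_iff] at hy
  obtain ⟨ε, hε, hb⟩ := hy
  obtain ⟨c, hc0, hc⟩ : ∃ c : ℤ_[p], c ≠ 0 ∧ ‖c‖ < ε := by
    obtain ⟨k, hk⟩ := PadicInt.exists_pow_neg_lt p hε
    refine ⟨(p : ℤ_[p]) ^ k, pow_ne_zero _ ?_, ?_⟩
    · exact_mod_cast (Fact.out : p.Prime).ne_zero
    · rw [PadicInt.norm_p_pow]
      exact hk
  have hs : LinearMap.range L = ⊤ := by
    rw [eq_top_iff, ← (Pi.basisFun ℚ_[p] (Fin l)).span_eq, Submodule.span_le]
    rintro _ ⟨i, rfl⟩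
    obtain ⟨x0, h0⟩ := hb (Metric.mem_ball_self hε)
    obtain ⟨x1, h1⟩ := hb (show y + Pi.single i c ∈ Metric.ball y ε by
      rw [mem_ball_iff_norm, add_sub_cancel_left, Pi.norm_single]
      exact hc)
    have hc' : (c : ℚ_[p]) ≠ 0 := fun h => hc0 (Subtype.ext h)
    refine ⟨(c : ℚ_[p])⁻¹ • ((fun j => (x1 j : ℚ_[p])) - fun j => (x0 j : ℚ_[p])), ?_⟩
    rw [map_smul, map_sub, hL, hL, h0, h1]
    funext j
    by_cases hj : j = i
    · subst hj
      simp [hc']
    · simp [hj]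
  have hk : Module.finrank ℚ_[p] (LinearMap.ker L) = 1 := by
    have h := LinearMap.finrank_range_add_finrank_ker L
    rw [hs, finrank_top, Module.finrank_fin_fun, Module.finrank_fin_fun] at h
    omega
  obtain ⟨u, hu0, hu⟩ := finrank_eq_one_iff'.1 hk
  obtain ⟨i, -, hi⟩ := Finset.exists_max_image Finset.univ (fun j => ‖u.1 j‖)
    ⟨0, Finset.mem_univ _⟩
  have hui : u.1 i ≠ 0 := by
    intro h
    apply hu0
    refine Subtype.ext (funext fun j => ?_)
    have h1 := hi j (Finset.mem_univ _)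
    rw [h, norm_zero] at h1
    exact norm_le_zero_iff.1 h1
  refine ⟨fun j => ⟨u.1 j / u.1 i, ?_⟩, i, Subtype.ext (div_self hui), fun z hz => ?_⟩
  · rw [norm_div]
    exact div_le_one_of_le₀ (hi j (Finset.mem_univ _)) (norm_nonneg _)
  · obtain ⟨b, hb⟩ := hu ⟨fun j => (z j : ℚ_[p]), by
      rw [LinearMap.mem_ker, hL, hz]
      rfl⟩
    have hb' : ∀ j, b * u.1 j = z j := fun j => congrFun (congrArg Subtype.val hb) j
    refine funext fun j => Subtype.ext ?_
    change (z j : ℚ_[p]) = (z i : ℚ_[p]) * (u.1 j / u.1 i)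
    rw [← hb', ← hb']
    field_simp

end Pool.Agent.Work.MP_2a522c_an.Pa
end

-- merged part: Cap
section
/-! Compact subsets of positive content over the `p`-adic integers. -/

open MeasureTheory Metric Set Filter Topology
open scoped ENNReal NNReal

namespace Pool.Agent.Work.MP_2a522c_an.Pa

section aux
variable {p : ℕ} [Fact p.Prime] {n : ℕ}

/-- The weight of a cell. -/
noncomputable def cap_wt (σ : ℝ) (c : Σ k : ℕ, Fin n → ZMod (p ^ k)) : ℝ≥0∞ :=
  ENNReal.ofReal (σ ^ c.1)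

/-- The cell. -/
def cap_cell (c : Σ k : ℕ, Fin n → ZMod (p ^ k)) : Set (Fin n → ℤ_[p]) := red p c.1 ⁻¹' {c.2}

theorem cap_le {σ : ℝ} {A : Set (Fin n → ℤ_[p])} {U : Set (Σ k : ℕ, Fin n → ZMod (p ^ k))}
    (h : A ⊆ ⋃ c ∈ U, cap_cell c) : cont p σ A ≤ ∑' c : U, cap_wt σ c.1 := iInf₂_le U h

theorem cap_ex {σ : ℝ} {A : Set (Fin n → ℤ_[p])} {c : ℝ≥0∞} (h : cont p σ A < c) :
    ∃ U : Set (Σ k : ℕ, Fin n → ZMod (p ^ k)),
      (A ⊆ ⋃ c ∈ U, cap_cell c) ∧ ∑' c : U, cap_wt σ c.1 < c := by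
  simpa only [cont, iInf_lt_iff, exists_prop, cap_wt, cap_cell] using h

omit [Fact p.Prime] in
theorem cap_wt_mono {σ σ' : ℝ} (h0 : 0 ≤ σ') (h : σ' ≤ σ) (c : Σ k : ℕ, Fin n → ZMod (p ^ k)) :
    cap_wt σ' c ≤ cap_wt σ c :=
  ENNReal.ofReal_le_ofReal (pow_le_pow_left₀ h0 h _)

omit [Fact p.Prime] in
theorem cap_wt_deep {σ σ' : ℝ} (h0 : 0 ≤ σ') (h : σ' < σ) {j : ℕ}
    {c : Σ k : ℕ, Fin n → ZMod (p ^ k)} (hj : j ≤ c.1) :
    cap_wt σ' c ≤ ENNReal.ofReal (σ' / σ) ^ j * cap_wt σ c := by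
  have hσ : 0 < σ := h0.trans_lt h
  rw [cap_wt, cap_wt, ← ENNReal.ofReal_pow (by positivity), ← ENNReal.ofReal_mul (by positivity)]
  refine ENNReal.ofReal_le_ofReal ?_
  have e : σ' ^ c.1 = (σ' / σ) ^ c.1 * σ ^ c.1 := by
    rw [← mul_pow, div_mul_cancel₀ _ hσ.ne']
  rw [e]
  exact mul_le_mul_of_nonneg_right
    (pow_le_pow_of_le_one (by positivity) ((div_le_one hσ).2 h.le) hj) (by positivity)

theorem cap_fin (j : ℕ) : {c : Σ k : ℕ, Fin n → ZMod (p ^ k) | c.1 ≤ j}.Finite := by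
  refine ((finite_Iic j).biUnion (t := fun k : ℕ => range
    (Sigma.mk (β := fun k : ℕ => Fin n → ZMod (p ^ k)) k))
    fun k _ => finite_range _).subset ?_
  rintro ⟨k, z⟩ hk
  exact mem_biUnion (x := k) hk ⟨z, rfl⟩

/-- Increasing sets lemma, with a loss in the ratio. -/
theorem cap_inc {A : ℕ → Set (Fin n → ℤ_[p])} (hA : Monotone A) {σ σ' : ℝ} (h0 : 0 ≤ σ')
    (hs : σ' < σ) {c : ℝ≥0∞} (hc : c ≠ ⊤) (h : ∀ i, cont p σ (A i) < c) :
    cont p σ' (⋃ i, A i) ≤ c := by
  choose U hU hS using fun i => cap_ex (h i)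
  set W : Set (Σ k : ℕ, Fin n → ZMod (p ^ k)) :=
    {x | ∀ᶠ i in (hyperfilter ℕ : Filter ℕ), x ∈ U i} with hW
  have a : ∑' x : W, cap_wt σ' x.1 ≤ c := by
    rw [ENNReal.tsum_eq_iSup_sum]
    refine iSup_le fun F => ?_
    obtain ⟨i, hi⟩ := ((eventually_all_finset F).2 fun x _ => x.2).exists
    rw [← Finset.tsum_subtype F fun x : W => cap_wt σ' x.1]
    refine le_trans ?_ (hS i).le
    exact (ENNReal.tsum_le_tsum fun x => cap_wt_mono h0 hs.le _).trans
      (ENNReal.tsum_comp_le_tsum_of_injective (f := fun x : F => (⟨x.1.1, hi x.1 x.2⟩ : U i))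
        (fun x y e => Subtype.ext (Subtype.ext (Subtype.mk.inj e))) fun x => cap_wt σ x.1)
  have b : ∀ i₀, ∀ η : ℝ≥0∞, 0 < η → ∃ T : Set (Σ k : ℕ, Fin n → ZMod (p ^ k)),
      (A i₀ ⊆ ⋃ x ∈ W ∪ T, cap_cell x) ∧ ∑' x : T, cap_wt σ' x.1 ≤ η := fun i₀ η hη => by
    have t : Tendsto (fun j : ℕ => ENNReal.ofReal (σ' / σ) ^ j * c) atTop (𝓝 0) := by
      simpa using ENNReal.Tendsto.mul_const (ENNReal.tendsto_pow_atTop_nhds_zero_of_lt_one
        (ENNReal.ofReal_lt_one.2 ((div_lt_one (h0.trans_lt hs)).2 hs))) (.inr hc)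
    obtain ⟨j, hj⟩ := (t.eventually (ge_mem_nhds hη)).exists
    have e : ∀ᶠ i in (hyperfilter ℕ : Filter ℕ),
        ∀ x ∈ {c : Σ k : ℕ, Fin n → ZMod (p ^ k) | c.1 ≤ j}, x ∈ U i → x ∈ W :=
      (eventually_all_finite (cap_fin j)).2 fun x _ => by
        by_cases k : x ∈ W
        · exact Eventually.of_forall fun _ _ => k
        · exact (Ultrafilter.eventually_not.2 k).mono fun i l m => (l m).elim
    obtain ⟨i, hi, hi'⟩ := (e.and (Nat.hyperfilter_le_atTop (eventually_ge_atTop i₀))).exists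
    refine ⟨{x | x ∈ U i ∧ j ≤ x.1}, fun y hy => ?_, le_trans ?_ hj⟩
    · obtain ⟨x, r, q⟩ := mem_iUnion₂.1 (hU i (hA hi' hy))
      refine mem_biUnion (x := x) ?_ q
      rcases le_total x.1 j with l | l
      exacts [.inl (hi x l r), .inr ⟨r, l⟩]
    · refine (ENNReal.tsum_le_tsum fun x => cap_wt_deep h0 hs x.2.2).trans ?_
      rw [ENNReal.tsum_mul_left]
      exact mul_le_mul_right
        ((ENNReal.tsum_mono_subtype (cap_wt σ) fun x hx => hx.1).trans (hS i).le) _
  refine ENNReal.le_of_forall_pos_le_add fun ε hε _ => ?_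
  obtain ⟨η, h0, h1⟩ := ENNReal.exists_pos_sum_of_countable' (ENNReal.coe_pos.2 hε).ne' ℕ
  choose T hT hT' using fun i => b i (η i) (h0 i)
  refine (cap_le (U := W ∪ ⋃ i, T i) (iUnion_subset fun i => (hT i).trans
    (biUnion_subset_biUnion_left (union_subset_union_right _ (subset_iUnion T i))))).trans ?_
  exact (ENNReal.tsum_union_le (cap_wt σ') _ _).trans (add_le_add a
    ((ENNReal.tsum_iUnion_le_tsum (cap_wt σ') T).trans ((ENNReal.tsum_le_tsum hT').trans h1.le)))

theorem cap_pos [MeasurableSpace ℤ_[p]] [BorelSpace ℤ_[p]] {E : Set (Fin n → ℤ_[p])} {s : ℝ≥0}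
    (hs : 0 < s) (h : (s : ℝ≥0∞) < dimH E) : 0 < cont p ((p : ℝ) ^ (-(s : ℝ))) E := by
  rw [pos_iff_ne_zero]
  intro h0
  have hp : (0 : ℝ) < p := by exact_mod_cast (Fact.out : p.Prime).pos
  have hs' : (0 : ℝ) < s := hs
  have r : ∀ k : ℕ, (0 : ℝ) < 1 / ((k : ℝ) + 1) := fun k => by positivity
  have w : ∀ c : Σ k : ℕ, Fin n → ZMod (p ^ k), cap_wt ((p : ℝ) ^ (-(s : ℝ))) c =
      ENNReal.ofReal ((((p : ℝ) ^ c.1)⁻¹) ^ (s : ℝ)) := fun c => by
    rw [cap_wt, Real.rpow_neg hp.le, ← Real.inv_rpow hp.le, Real.rpow_pow_comm (by positivity),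
      inv_pow]
  choose U hU hS using fun k : ℕ => cap_ex (σ := (p : ℝ) ^ (-(s : ℝ))) (A := E)
    (c := ENNReal.ofReal ((1 / ((k : ℝ) + 1)) ^ (s : ℝ)))
    (h0 ▸ ENNReal.ofReal_pos.2 (Real.rpow_pos_of_pos (r k) _))
  have d : ∀ c : Σ k : ℕ, Fin n → ZMod (p ^ k),
      ediam (cap_cell c) ≤ ENNReal.ofReal (((p : ℝ) ^ c.1)⁻¹) :=
    fun c => ediam_le_of_forall_dist_le fun x hx y hy => by
      have := (red_eq_iff p c.1 x y).1 ((show red p c.1 x = c.2 from hx).trans
        (show red p c.1 y = c.2 from hy).symm)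
      rwa [zpow_neg, zpow_natCast] at this
  have := Measure.hausdorffMeasure_le_liminf_tsum (s : ℝ) E (l := atTop)
    (fun k : ℕ => ENNReal.ofReal (1 / ((k : ℝ) + 1)))
    (by simpa using ENNReal.tendsto_ofReal tendsto_one_div_add_atTop_nhds_zero_nat)
    (fun k (c : U k) => cap_cell c.1) (Eventually.of_forall fun k c => (d _).trans (by
      have := (ENNReal.le_tsum c).trans_lt (hS k)
      rw [w] at this
      have := ((ENNReal.ofReal_lt_ofReal_iff (Real.rpow_pos_of_pos (r k) _)).1 this).le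
      rw [Real.rpow_le_rpow_iff (by positivity) (r k).le hs'] at this
      exact ENNReal.ofReal_le_ofReal this))
    (Eventually.of_forall fun k => (hU k).trans_eq (biUnion_eq_iUnion _ _))
  rw [hausdorffMeasure_of_lt_dimH h] at this
  refine (this.trans_lt (lt_of_le_of_lt (liminf_le_of_frequently_le' (Frequently.of_forall
    fun k => ?_)) ENNReal.one_lt_top)).false
  calc ∑' c : U k, ediam (cap_cell c.1) ^ (s : ℝ)
      ≤ ∑' c : U k, cap_wt ((p : ℝ) ^ (-(s : ℝ))) c.1 := ENNReal.tsum_le_tsum fun c => by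
        rw [w, ← ENNReal.ofReal_rpow_of_nonneg (by positivity) hs'.le]
        exact ENNReal.rpow_le_rpow (d _) hs'.le
    _ ≤ 1 := by
        refine (hS k).le.trans (ENNReal.ofReal_le_one.2 ?_)
        refine Real.rpow_le_one (r k).le ?_ hs'.le
        rw [div_le_one (by positivity)]
        linarith [Nat.cast_nonneg (α := ℝ) k]

/-- An open set containing a product of finite intervals contains a cylinder over it. -/
theorem cap_open (ν : ℕ → ℕ) {O : Set (ℕ → ℕ)} (hO : IsOpen O)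
    (h : (univ.pi fun j => Iic (ν j)) ⊆ O) : ∃ i, {x | ∀ j < i, x j ≤ ν j} ⊆ O := by
  by_contra hc
  push Not at hc
  choose x hx hx' using fun i => not_subset.1 (hc i)
  obtain ⟨y, hy, φ, hφ, t⟩ := (isCompact_univ_pi fun j => (finite_Iic (ν j)).isCompact).tendsto_subseq
    (x := fun i j => min (x i j) (ν j)) fun i j _ => mem_Iic.2 (min_le_right _ _)
  have t' : Tendsto (fun i => x (φ i)) atTop (𝓝 y) := tendsto_pi_nhds.2 fun j =>
    (tendsto_pi_nhds.1 t j).congr' ((eventually_gt_atTop j).mono fun i hi =>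
      min_eq_left (hx _ j (hi.trans_le (hφ.id_le i))))
  obtain ⟨i, hi⟩ := (t'.eventually (hO.mem_nhds (h hy))).exists
  exact hx' _ hi

theorem cap_range {f : (ℕ → ℕ) → Fin n → ℤ_[p]} (hf : Continuous f) {σ σ₀ : ℝ} (h0 : 0 ≤ σ₀)
    (hs : σ₀ < σ) {c : ℝ≥0∞} (h : c < cont p σ₀ (range f)) :
    ∃ K ⊆ range f, IsCompact K ∧ c ≤ cont p σ K := by
  let e : ℕ → ℝ := fun i => σ - (σ - σ₀) / (i + 1)
  have e0 : e 0 = σ₀ := by simp [e]
  have e1 : ∀ i, e i ≤ σ := fun i => sub_le_self _ (by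
    have := sub_pos.2 hs
    positivity)
  have e2 : ∀ i, e i < e (i + 1) := fun i => sub_lt_sub_left
    (div_lt_div_of_pos_left (sub_pos.2 hs) (by positivity) (by push_cast; linarith)) _
  have e3 : ∀ i, 0 ≤ e i := fun i =>
    (h0.trans_eq e0.symm).trans ((strictMono_nat_of_lt_succ e2).monotone (Nat.zero_le i))
  have step : ∀ (i : ℕ) (T : Set (ℕ → ℕ)), ∃ m, c < cont p (e i) (f '' T) →
      c < cont p (e (i + 1)) (f '' (T ∩ {x | x i ≤ m})) := fun i T => by
    by_contra hc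
    push Not at hc
    obtain ⟨c', a, b⟩ := exists_between (hc 0).1
    have := cap_inc (A := fun m => f '' (T ∩ {x | x i ≤ m}))
      (fun m m' l => image_mono (inter_subset_inter_right _ fun x hx => le_trans hx l))
      (e3 i) (e2 i) (ne_top_of_lt b) fun m => (hc m).2.trans_lt a
    rw [← image_iUnion, ← inter_iUnion, eq_univ_of_forall (s := ⋃ m, {x : ℕ → ℕ | x i ≤ m})
      fun x => mem_iUnion.2 ⟨x i, le_refl (x i)⟩, inter_univ] at this
    exact b.not_ge this
  choose g hg using step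
  let T : ℕ → Set (ℕ → ℕ) := fun i => Nat.rec univ (fun i T => T ∩ {x | x i ≤ g i T}) i
  have a : ∀ i, c < cont p (e i) (f '' T i) := fun i => by
    induction i with
    | zero => rwa [e0, show T 0 = univ from rfl, image_univ]
    | succ i ih => exact hg i _ ih
  have b : ∀ i, {x | ∀ j < i, x j ≤ g j (T j)} = T i := fun i => by
    induction i with
    | zero => exact eq_univ_of_forall fun x j hj => (Nat.not_lt_zero j hj).elim
    | succ i ih =>
      rw [show T (i + 1) = T i ∩ {x | x i ≤ g i (T i)} from rfl]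
      conv_rhs => lhs; rw [← ih]
      ext x
      exact Nat.forall_lt_succ_right
  refine ⟨f '' univ.pi fun j => Iic (g j (T j)), image_subset_range _ _,
    (isCompact_univ_pi fun j => (finite_Iic _).isCompact).image hf, le_iInf₂ fun U hU => ?_⟩
  obtain ⟨i, hi⟩ := cap_open (fun j => g j (T j))
    ((isOpen_biUnion fun c _ => (isClopen_red p c.1 c.2).isOpen).preimage hf)
    (image_subset_iff.1 hU)
  rw [b, ← image_subset_iff] at hi
  exact (a i).le.trans ((cap_le hi).trans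
    (ENNReal.tsum_le_tsum fun x => cap_wt_mono (e3 i) (e1 i) _))

end aux

theorem cap (p : ℕ) [Fact p.Prime] [MeasurableSpace ℤ_[p]] [BorelSpace ℤ_[p]] : StmtCap p := by
  intro n E s hE hs h
  have hp : (1 : ℝ) < p := by exact_mod_cast (Fact.out : p.Prime).one_lt
  obtain ⟨s₀, a, b⟩ := ENNReal.lt_iff_exists_nnreal_btwn.1 h
  have a' : s < s₀ := (ENNReal.ofReal_lt_coe_iff hs.le).1 a
  obtain ⟨c, c0, c1⟩ := exists_between (cap_pos (NNReal.coe_pos.1 (hs.trans a')) b)
  have := hE.analyticSet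
  rw [AnalyticSet] at this
  rcases this with e | ⟨f, hf, e⟩
  · rw [e, dimH_empty] at h
    exact (not_lt_bot h).elim
  · rw [← e] at c1
    obtain ⟨K, r, q, t⟩ := cap_range hf (by positivity)
      (Real.rpow_lt_rpow_of_exponent_lt hp (neg_lt_neg a')) c1
    exact ⟨K, r.trans e.subset, q, c0.trans_le t⟩

end Pool.Agent.Work.MP_2a522c_an.Pa
end

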